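import Mathlib

set_option autoImplicit false

/-! Counting the square roots of a squarefree number modulo odd numbers. -/

namespace Pool.Agent.H42.SF

open Finset

/-- The square roots of `a` modulo `k`. -/
def roots (a : ℤ) (k : ℕ) : Finset ℕ := (range k).filter fun b : ℕ => (k : ℤ) ∣ (b : ℤ) ^ 2 - a

theorem card_roots {a : ℤ} (ha : Squarefree a) {k : ℕ} (hk : Odd k) :
    (roots a k).card ≤ k.divisors.card := by
  rcases (roots a k).eq_empty_or_nonempty with h0 | ⟨b1, hb1⟩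
  · rw [h0]; simp
  have hk0 : 0 < k := hk.pos
  have hb1' := (mem_filter.1 hb1).2
  apply card_le_card_of_injOn (fun b : ℕ => Int.gcd k ((b1 : ℤ) - b))
  · intro b _
    rw [mem_coe, Nat.mem_divisors]
    exact ⟨Int.natCast_dvd_natCast.1 (Int.gcd_dvd_left (k : ℤ) ((b1 : ℤ) - b)), hk0.ne'⟩
  · intro b2 h2 b3 h3 h
    have h2' := (mem_filter.1 (mem_coe.1 h2)).2
    have h3' := (mem_filter.1 (mem_coe.1 h3)).2
    have hb2 := mem_range.1 (mem_filter.1 (mem_coe.1 h2)).1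
    have hb3 := mem_range.1 (mem_filter.1 (mem_coe.1 h3)).1
    simp only at h
    set d := Int.gcd k ((b1 : ℤ) - b2) with hd
    have key : ∀ b : ℕ, (k : ℤ) ∣ (b : ℤ) ^ 2 - a → Int.gcd k ((b1 : ℤ) - b) = d →
        (d : ℤ) ∣ (b1 : ℤ) - b ∧ ∀ e : ℤ, (k : ℤ) = d * e → e ∣ (b1 : ℤ) + b := by
      intro b hb hg
      refine ⟨by rw [← hg]; exact Int.gcd_dvd_right _ _, ?_⟩
      intro e he
      have hbez : (d : ℤ) = k * Int.gcdA k ((b1 : ℤ) - b) + ((b1 : ℤ) - b) * Int.gcdB k ((b1 : ℤ) - b) := by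
        rw [← hg]; exact Int.gcd_eq_gcd_ab _ _
      have hdvd : (k : ℤ) ∣ d * ((b1 : ℤ) + b) := by
        have e1 : (d : ℤ) * ((b1 : ℤ) + b) = k * (Int.gcdA k ((b1 : ℤ) - b) * ((b1 : ℤ) + b)) +
            (((b1 : ℤ) ^ 2 - a) - ((b : ℤ) ^ 2 - a)) * Int.gcdB k ((b1 : ℤ) - b) := by
          rw [hbez]; ring
        rw [e1]
        exact dvd_add (dvd_mul_right _ _) ((dvd_sub hb1' hb).mul_right _)
      have hd0 : (d : ℤ) ≠ 0 := by
        intro h0; rw [h0, zero_mul] at he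
        exact hk0.ne' (by exact_mod_cast he)
      rw [he] at hdvd
      exact (mul_dvd_mul_iff_left hd0).1 hdvd
    obtain ⟨p2, q2⟩ := key b2 h2' hd.symm
    obtain ⟨p3, q3⟩ := key b3 h3' h.symm
    have hdk : d ∣ k := Int.natCast_dvd_natCast.1 (Int.gcd_dvd_left (k : ℤ) ((b1 : ℤ) - b2))
    obtain ⟨e, he⟩ := hdk
    have he' : (k : ℤ) = d * (e : ℤ) := by exact_mod_cast he
    have e2 := q2 e he'
    have e3 := q3 e he'
    have hcop : Nat.Coprime d e := by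
      by_contra hc
      obtain ⟨ℓ, hℓ, hl1, hl2⟩ := Nat.Prime.not_coprime_iff_dvd.1 hc
      have hℓ' : Prime (ℓ : ℤ) := Nat.prime_iff_prime_int.1 hℓ
      have m1 : (ℓ : ℤ) ∣ (b1 : ℤ) - b2 := (Int.natCast_dvd_natCast.2 hl1).trans p2
      have m2 : (ℓ : ℤ) ∣ (b1 : ℤ) + b2 := (Int.natCast_dvd_natCast.2 hl2).trans e2
      have m3 : (ℓ : ℤ) ∣ 2 * b1 := by
        have e0 : 2 * (b1 : ℤ) = ((b1 : ℤ) - b2) + ((b1 : ℤ) + b2) := by ring
        rw [e0]; exact dvd_add m1 m2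
      have hne2 : ¬ (ℓ : ℤ) ∣ 2 := by
        intro hdiv
        have h5 : ℓ ∣ 2 := by exact_mod_cast hdiv
        have h6 : ℓ = 2 := (Nat.prime_dvd_prime_iff_eq hℓ Nat.prime_two).1 h5
        have h7 : ℓ ∣ k := by rw [he]; exact hl1.mul_right e
        rw [h6] at h7
        exact (Nat.not_even_iff_odd.2 hk) (even_iff_two_dvd.2 h7)
      have m4 : (ℓ : ℤ) ∣ b1 := (hℓ'.dvd_or_dvd m3).resolve_left hne2
      have m5 : (ℓ : ℤ) * ℓ ∣ (b1 : ℤ) ^ 2 := by rw [sq]; exact mul_dvd_mul m4 m4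
      have m6 : (ℓ : ℤ) * ℓ ∣ (k : ℤ) := by
        rw [he']; exact mul_dvd_mul (Int.natCast_dvd_natCast.2 hl1) (Int.natCast_dvd_natCast.2 hl2)
      have m7 : (ℓ : ℤ) * ℓ ∣ a := by
        have e0 : a = (b1 : ℤ) ^ 2 - ((b1 : ℤ) ^ 2 - a) := by ring
        rw [e0]; exact dvd_sub m5 (m6.trans hb1')
      exact hℓ'.not_isUnit (ha _ m7)
    have hfin : (k : ℤ) ∣ (b3 : ℤ) - b2 := by
      rw [he']
      apply IsCoprime.mul_dvd (Nat.isCoprime_iff_coprime.2 hcop)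
      · have e0 : (b3 : ℤ) - b2 = ((b1 : ℤ) - b2) - ((b1 : ℤ) - b3) := by ring
        rw [e0]; exact dvd_sub p2 p3
      · have e0 : (b3 : ℤ) - b2 = ((b1 : ℤ) + b3) - ((b1 : ℤ) + b2) := by ring
        rw [e0]; exact dvd_sub e3 e2
    have hlt : |(b3 : ℤ) - b2| < k := by rw [abs_lt]; constructor <;> omega
    have := Int.eq_zero_of_abs_lt_dvd hfin hlt
    omega

/-- The odd moduli up to `X` with a square root of `a`. -/
def pairs (a : ℤ) (X : ℕ) : Finset (Σ _ : ℕ, ℕ) :=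
  ((Ioc 0 X).filter fun k => Odd k).sigma fun k => roots a k

theorem card_pairs {a : ℤ} (ha : Squarefree a) (X : ℕ) :
    ((pairs a X).card : ℝ) ≤ X * (1 + Real.log X) := by
  have h1 : (pairs a X).card ≤ ∑ k ∈ Ioc 0 X, k.divisors.card := by
    rw [pairs, card_sigma]
    calc ∑ k ∈ (Ioc 0 X).filter (fun k => Odd k), (roots a k).card
        ≤ ∑ k ∈ (Ioc 0 X).filter (fun k => Odd k), k.divisors.card :=
          sum_le_sum fun k hk => card_roots ha (mem_filter.1 hk).2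
      _ ≤ ∑ k ∈ Ioc 0 X, k.divisors.card :=
          sum_le_sum_of_subset (filter_subset _ _)
  have h2 : ∑ k ∈ Ioc 0 X, k.divisors.card ≤ ∑ d ∈ Ioc 0 X, X / d := by
    have e1 : ∀ k ∈ Ioc 0 X, k.divisors.card = ∑ d ∈ Ioc 0 X, if d ∣ k then 1 else 0 := by
      intro k hk
      rw [mem_Ioc] at hk
      rw [← card_filter]
      congr 1
      ext d
      simp only [Nat.mem_divisors, mem_filter, mem_Ioc]
      constructor
      · rintro ⟨hd, _⟩
        exact ⟨⟨Nat.pos_of_dvd_of_pos hd hk.1, (Nat.le_of_dvd hk.1 hd).trans hk.2⟩, hd⟩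
      · rintro ⟨_, hd⟩
        exact ⟨hd, hk.1.ne'⟩
    rw [sum_congr rfl e1, sum_comm]
    apply le_of_eq
    apply sum_congr rfl
    intro d _
    rw [← card_filter, Nat.Ioc_filter_dvd_card_eq_div]
  have h3 : ((∑ d ∈ Ioc 0 X, X / d : ℕ) : ℝ) ≤ X * (harmonic X : ℝ) := by
    rw [harmonic]
    push_cast
    rw [mul_sum]
    have e2 : ∑ i ∈ range X, (X : ℝ) * ((i : ℝ) + 1)⁻¹ = ∑ d ∈ Ioc 0 X, (X : ℝ) * (d : ℝ)⁻¹ := by
      apply Finset.sum_nbij (fun i => i + 1)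
      · intro i hi; rw [mem_range] at hi; rw [mem_Ioc]; omega
      · intro i _ j _ h; simpa using h
      · intro d hd
        rw [mem_coe, mem_Ioc] at hd
        exact ⟨d - 1, by rw [mem_coe, mem_range]; omega, by simp only; omega⟩
      · intro i _; push_cast; rfl
    rw [e2]
    apply sum_le_sum
    intro d _
    rw [← div_eq_mul_inv]
    exact Nat.cast_div_le
  calc ((pairs a X).card : ℝ) ≤ ((∑ d ∈ Ioc 0 X, X / d : ℕ) : ℝ) := by exact_mod_cast h1.trans h2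
    _ ≤ X * (harmonic X : ℝ) := h3
    _ ≤ X * (1 + Real.log X) := by
        apply mul_le_mul_of_nonneg_left (harmonic_le_one_add_log X) (by positivity)

end Pool.Agent.H42.SF
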