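import Pool.Agent.H42.SF.Key
import Pool.Agent.H42.SF.Count

set_option autoImplicit false

/-! Many elements of `ℤ[√a]` of small norm, and what happens if two of them generate the same ideal
outside of `2`. -/

namespace Pool.Agent.H42.SF

open Finset Pell

/-- The two real absolute values. -/
noncomputable def rp {a : ℤ} (α : ℤ√a) : ℝ := |(α.re : ℝ) + α.im * √(a : ℝ)|

/-- The two real absolute values. -/
noncomputable def rm {a : ℤ} (α : ℤ√a) : ℝ := |(α.re : ℝ) - α.im * √(a : ℝ)|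

/-- The bound for the norms. -/
noncomputable def XX (a : ℤ) : ℝ := 2 * √(a : ℝ) + 1

theorem XX_pos (a : ℤ) : 0 < XX a := by unfold XX; positivity

section

variable {n : ℕ} {a y : ℤ} {ρ : ℤ_[2]} (D : Dat n a y ρ)

include D

theorem Dat.sqrt_sq : √(a : ℝ) * √(a : ℝ) = a :=
  Real.mul_self_sqrt (by exact_mod_cast D.apos.le)

theorem Dat.rp_mul_rm (α : ℤ√a) : rp α * rm α = |(α.norm : ℝ)| := by
  rw [rp, rm, ← abs_mul, Zsqrtd.norm_def]
  congr 1
  push_cast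
  linear_combination (-(α.im : ℝ) ^ 2) * D.sqrt_sq

theorem Dat.norm_ne {α : ℤ√a} (h : 0 < α.im) : α.norm ≠ 0 := by
  intro h0
  rw [Zsqrtd.norm_def] at h0
  apply D.not_sq
  have : a * (α.im) ^ 2 = α.re ^ 2 := by linear_combination -h0
  obtain ⟨b, hb⟩ : α.im ∣ α.re := by
    rw [← Int.pow_dvd_pow_iff (n := 2) (by norm_num)]
    exact ⟨a, by linear_combination -this⟩
  refine ⟨b, ?_⟩
  rw [hb] at this
  have h5 : (α.im) ^ 2 * a = (α.im) ^ 2 * (b * b) := by linear_combination this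
  exact mul_left_cancel₀ (pow_ne_zero 2 h.ne') h5

/-- A small element which is divisible by `2^κ` at the place `√a ↦ -ρ`. -/
structure Dat.Good (κ K : ℕ) (α : ℤ√a) : Prop where
  pos : 0 < α.im
  dvd : (2 : ℤ_[2]) ^ κ ∣ D.Q α
  small : rm α ≤ 2 ^ κ / 2 ^ K
  large : rp α ≤ 2 ^ K * XX a
  prim : ∀ ℓ : ℕ, ℓ.Prime → ℓ ≠ 2 → ¬ ((ℓ : ℤ) ∣ α.re ∧ (ℓ : ℤ) ∣ α.im)

theorem Dat.exists_good {κ K : ℕ} (h : κ ≤ 2 * K) : ∃ α : ℤ√a, D.Good κ K α := by
  classical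
  let p : ℕ → Prop := fun v => 0 < v ∧ ∃ u : ℤ, (2 : ℤ_[2]) ^ κ ∣ D.Q ⟨u, v⟩ ∧
    rm (⟨u, v⟩ : ℤ√a) ≤ 2 ^ κ / 2 ^ K ∧ rp (⟨u, v⟩ : ℤ√a) ≤ 2 ^ K * XX a
  have hex : ∃ v, p v := by
    obtain ⟨j, k, hk0, hk1, hk2⟩ := Real.exists_int_int_abs_mul_sub_le
      ((√(a : ℝ) - (ρ.appr κ : ℝ)) / 2 ^ κ) (n := 2 ^ K) (by positivity)
    refine ⟨k.toNat, by omega, k * (ρ.appr κ : ℤ) + 2 ^ κ * j, ?_⟩
    have hkk : ((k.toNat : ℕ) : ℤ) = k := Int.toNat_of_nonneg hk0.le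
    have hkR : (((k.toNat : ℕ) : ℤ) : ℝ) = k := by rw [hkk]
    have h2κ : (0 : ℝ) < 2 ^ κ := by positivity
    have h2K : (0 : ℝ) < 2 ^ K := by positivity
    have hrm : rm (⟨k * (ρ.appr κ : ℤ) + 2 ^ κ * j, (k.toNat : ℤ)⟩ : ℤ√a) ≤ 2 ^ κ / 2 ^ K := by
      rw [rm]
      simp only
      rw [hkR]
      have e1 : (((k * (ρ.appr κ : ℤ) + 2 ^ κ * j : ℤ)) : ℝ) - k * √(a : ℝ) =
          -(2 ^ κ * (k * ((√(a : ℝ) - (ρ.appr κ : ℝ)) / 2 ^ κ) - j)) := by
        push_cast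
        field_simp
        ring
      rw [e1, abs_neg, abs_mul, abs_of_pos h2κ, div_eq_mul_inv]
      apply mul_le_mul_of_nonneg_left _ h2κ.le
      refine hk2.trans ?_
      rw [one_div]
      push_cast
      exact inv_anti₀ h2K (by linarith)
    refine ⟨?_, hrm, ?_⟩
    · rw [D.Q_apply]
      simp only
      rw [hkk]
      have happr := PadicInt.appr_spec κ ρ
      rw [Ideal.mem_span_singleton] at happr
      obtain ⟨c, hc⟩ := happr
      refine ⟨j - k * c, ?_⟩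
      push_cast
      push_cast at hc
      linear_combination (-(k : ℤ_[2])) * hc
    · have e2 : rp (⟨k * (ρ.appr κ : ℤ) + 2 ^ κ * j, (k.toNat : ℤ)⟩ : ℤ√a) ≤
          rm (⟨k * (ρ.appr κ : ℤ) + 2 ^ κ * j, (k.toNat : ℤ)⟩ : ℤ√a) + 2 * k * √(a : ℝ) := by
        rw [rp, rm]
        simp only
        rw [hkR]
        have hk' : (0 : ℝ) ≤ 2 * k * √(a : ℝ) := by
          have : (0 : ℝ) ≤ k := by exact_mod_cast hk0.le
          positivity
        calc |(((k * (ρ.appr κ : ℤ) + 2 ^ κ * j : ℤ)) : ℝ) + k * √(a : ℝ)|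
            = |((((k * (ρ.appr κ : ℤ) + 2 ^ κ * j : ℤ)) : ℝ) - k * √(a : ℝ)) + 2 * k * √(a : ℝ)| := by
              congr 1; ring
          _ ≤ _ := (abs_add_le _ _).trans (by rw [abs_of_nonneg hk'])
      have e3 : (2 : ℝ) ^ κ / 2 ^ K ≤ 2 ^ K := by
        rw [div_le_iff₀ h2K, ← pow_add]
        exact pow_le_pow_right₀ (by norm_num) (by omega)
      have e4 : (k : ℝ) ≤ 2 ^ K := by exact_mod_cast hk1
      have e5 : 0 ≤ √(a : ℝ) := Real.sqrt_nonneg _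
      have e6 : (k : ℝ) * √(a : ℝ) ≤ 2 ^ K * √(a : ℝ) := mul_le_mul_of_nonneg_right e4 e5
      rw [XX]
      linarith
  have hp := Nat.find_spec hex
  obtain ⟨hv0, u, h1, h2, h3⟩ := hp
  refine ⟨⟨u, (Nat.find hex : ℕ)⟩, ?_, h1, h2, h3, ?_⟩
  · change (0 : ℤ) < ((Nat.find hex : ℕ) : ℤ)
    exact_mod_cast hv0
  · rintro ℓ hℓ hℓ2 ⟨⟨u', hu'⟩, hv'⟩
    simp only at hu' hv'
    obtain ⟨v', hv'⟩ : ℓ ∣ Nat.find hex := by exact_mod_cast hv'
    have hl1 : (1 : ℝ) ≤ ℓ := by exact_mod_cast hℓ.one_lt.le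
    have hlt : v' < Nat.find hex := by
      rw [hv']
      have : 0 < v' := Nat.pos_of_ne_zero (by rintro rfl; rw [hv'] at hv0; simp at hv0)
      nlinarith [hℓ.one_lt]
    refine Nat.find_min hex hlt ⟨Nat.pos_of_ne_zero (by rintro rfl; rw [hv'] at hv0; simp at hv0), u', ?_, ?_, ?_⟩
    · have hunit : IsUnit (ℓ : ℤ_[2]) := by
        rw [isUnit_iff]
        obtain ⟨m, hm⟩ := hℓ.odd_of_ne_two hℓ2
        exact ⟨m, by rw [hm]; push_cast; ring⟩
      rw [← dvd_unit_mul hunit]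
      convert h1 using 1
      rw [D.Q_apply, D.Q_apply]
      simp only
      rw [hu', hv']
      push_cast; ring
    · have e1 : rm (⟨u, (Nat.find hex : ℕ)⟩ : ℤ√a) = ℓ * rm (⟨u', v'⟩ : ℤ√a) := by
        rw [rm, rm]
        simp only
        rw [hu', hv', ← abs_of_nonneg (by positivity : (0 : ℝ) ≤ ℓ), ← abs_mul]
        congr 1
        push_cast; ring
      rw [e1] at h2
      have : 0 ≤ rm (⟨u', v'⟩ : ℤ√a) := abs_nonneg _
      nlinarith
    · have e1 : rp (⟨u, (Nat.find hex : ℕ)⟩ : ℤ√a) = ℓ * rp (⟨u', v'⟩ : ℤ√a) := by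
        rw [rp, rp]
        simp only
        rw [hu', hv', ← abs_of_nonneg (by positivity : (0 : ℝ) ≤ ℓ), ← abs_mul]
        congr 1
        push_cast; ring
      rw [e1] at h3
      have : 0 ≤ rp (⟨u', v'⟩ : ℤ√a) := abs_nonneg _
      nlinarith

/-- The invariants of a small element. -/
structure Dat.Inv (κ K : ℕ) (α : ℤ√a) (i j m b : ℕ) : Prop where
  good : D.Good κ K α
  hQ : ∃ u, IsUnit u ∧ D.Q α = 2 ^ i * u
  hP : ∃ u, IsUnit u ∧ D.P α = 2 ^ j * u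
  ki : κ ≤ i
  odd : Odd m
  norm : α.norm.natAbs = 2 ^ (i + j) * m
  bound : (2 : ℝ) ^ ((i - κ) + j) * m ≤ XX a
  mem : b ∈ roots a m
  cong : (m : ℤ) ∣ α.re - b * α.im

theorem Dat.exists_inv {κ K : ℕ} (h : κ ≤ 2 * K) :
    ∃ (α : ℤ√a) (i j m b : ℕ), D.Inv κ K α i j m b := by
  obtain ⟨α, hα⟩ := D.exists_good h
  have hn0 := D.norm_ne hα.pos
  have hPQ := D.P_mul_Q α
  have hne : (α.norm : ℤ_[2]) ≠ 0 := by exact_mod_cast hn0
  have hP0 : D.P α ≠ 0 := by intro h0; rw [h0, zero_mul] at hPQ; exact hne hPQ.symm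
  have hQ0 : D.Q α ≠ 0 := by intro h0; rw [h0, mul_zero] at hPQ; exact hne hPQ.symm
  obtain ⟨i, u, hu, hQ⟩ := exists_pow_mul _ hQ0
  obtain ⟨j, v, hv, hP⟩ := exists_pow_mul _ hP0
  obtain ⟨s, m, hm, hs⟩ := Nat.exists_eq_two_pow_mul_odd (n := α.norm.natAbs) (by simpa using hn0)
  have hki : κ ≤ i := by
    have := hα.dvd
    rw [hQ] at this
    exact pow_dvd_pow_mul_unit hu this
  have hmu : IsUnit (m : ℤ_[2]) := by
    rw [isUnit_iff]
    obtain ⟨c, hc⟩ := hm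
    exact ⟨c, by rw [hc]; push_cast; ring⟩
  have hsij : s = i + j := by
    rw [hP, hQ] at hPQ
    have e2 : α.norm = 2 ^ s * m ∨ α.norm = -(2 ^ s * m) := by
      have := Int.natAbs_eq α.norm
      rw [hs] at this; push_cast at this; exact this
    rcases e2 with e2 | e2
    · rw [e2] at hPQ; push_cast at hPQ
      exact (pow_eq_pow (k := i + j) (l := s) (hu.mul hv) hmu (by
        rw [← hPQ, pow_add]; ring)).symm
    · rw [e2] at hPQ; push_cast at hPQ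
      exact (pow_eq_pow (k := i + j) (l := s) (hu.mul hv) hmu.neg (by
        rw [mul_neg, ← hPQ, pow_add]; ring)).symm
  subst hsij
  -- `im` is prime to `m`
  have hmn : (m : ℤ) ∣ α.norm := by
    rw [← Int.dvd_natAbs, hs]; push_cast; exact dvd_mul_left _ _
  have hcop : IsCoprime (α.im) (m : ℤ) := by
    rw [Int.isCoprime_iff_gcd_eq_one]
    by_contra hc
    obtain ⟨ℓ, hℓ, hl⟩ := Nat.exists_prime_and_dvd hc
    have hl1 : (ℓ : ℤ) ∣ α.im := (Int.natCast_dvd_natCast.2 hl).trans (Int.gcd_dvd_left _ _)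
    have hl2 : (ℓ : ℤ) ∣ (m : ℤ) := (Int.natCast_dvd_natCast.2 hl).trans (Int.gcd_dvd_right _ _)
    have hℓ2 : ℓ ≠ 2 := by
      rintro rfl
      have : 2 ∣ m := by exact_mod_cast hl2
      exact (Nat.not_even_iff_odd.2 hm) (even_iff_two_dvd.2 this)
    have hℓ' : Prime (ℓ : ℤ) := Nat.prime_iff_prime_int.1 hℓ
    have hl3 : (ℓ : ℤ) ∣ α.re * α.re := by
      have e0 : α.re * α.re = α.norm + a * α.im * α.im := by rw [Zsqrtd.norm_def]; ring
      rw [e0]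
      exact dvd_add (hl2.trans hmn) (hl1.mul_left _)
    have hl4 : (ℓ : ℤ) ∣ α.re := by
      rcases hℓ'.dvd_or_dvd hl3 with h | h <;> exact h
    exact hα.prim ℓ hℓ hℓ2 ⟨hl4, hl1⟩
  have hm0 : (0 : ℤ) < m := by exact_mod_cast hm.pos
  obtain ⟨x, z, hxz⟩ := hcop
  refine ⟨α, i, j, m, (α.re * x % m).toNat, hα, ⟨u, hu, hQ⟩, ⟨v, hv, hP⟩, hki, hm, hs, ?_, ?_, ?_⟩
  · have h1 : (2 : ℝ) ^ (i + j) * m ≤ 2 ^ κ * XX a := by
      have e1 : |(α.norm : ℝ)| = 2 ^ (i + j) * m := by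
        rw [← Int.cast_abs, Int.abs_eq_natAbs, hs]; push_cast; rfl
      rw [← e1, ← D.rp_mul_rm]
      calc rp α * rm α ≤ (2 ^ K * XX a) * (2 ^ κ / 2 ^ K) := by
            apply mul_le_mul hα.large hα.small (abs_nonneg _)
            have := XX_pos a; positivity
        _ = 2 ^ κ * XX a := by field_simp
    have h2 : (2 : ℝ) ^ κ * (2 ^ (i - κ + j) * m) = 2 ^ (i + j) * m := by
      rw [← mul_assoc, ← pow_add]; congr 2; omega
    rw [← h2] at h1
    exact le_of_mul_le_mul_left h1 (by positivity)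
  · have hmod : ((α.re * x % m).toNat : ℤ) = α.re * x % m :=
      Int.toNat_of_nonneg (Int.emod_nonneg _ hm0.ne')
    rw [roots, mem_filter, mem_range]
    refine ⟨by have := Int.emod_lt_of_pos (α.re * x) hm0; omega, ?_⟩
    rw [hmod]
    have h1 : (m : ℤ) ∣ α.re * x - α.re * x % m := Int.dvd_self_sub_emod
    obtain ⟨c, hc⟩ := h1
    have e1 : α.re * x % m = α.re * x - m * c := by linarith
    obtain ⟨d, hd⟩ := hmn
    rw [Zsqrtd.norm_def] at hd
    refine ⟨-2 * α.re * x * c + m * c ^ 2 + x ^ 2 * d - a * z * (x * α.im + 1), ?_⟩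
    rw [e1]
    linear_combination (x ^ 2) * hd + (a * (x * α.im + 1)) * hxz
  · have hmod : ((α.re * x % m).toNat : ℤ) = α.re * x % m :=
      Int.toNat_of_nonneg (Int.emod_nonneg _ hm0.ne')
    rw [hmod]
    have h1 : (m : ℤ) ∣ α.re * x - α.re * x % m := Int.dvd_self_sub_emod
    obtain ⟨c, hc⟩ := h1
    have e1 : α.re * x % m = α.re * x - m * c := by linarith
    refine ⟨c * α.im + z * α.re, ?_⟩
    rw [e1]
    linear_combination (-α.re) * hxz

end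

end Pool.Agent.H42.SF
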