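import Mathlib

set_option autoImplicit false

/-! The integers of a quadratic number field. -/

namespace Pool.Agent.H42.SF

open NumberField Module

/-- A rational number `t` with `a t²` integral, `a` squarefree, is an integer. -/
theorem rat_int {a : ℤ} (ha : Squarefree a) {t : ℚ} {m : ℤ} (h : (a : ℚ) * t ^ 2 = m) :
    ∃ v : ℤ, t = v := by
  have hd : (t.den : ℚ) ≠ 0 := by exact_mod_cast t.den_ne_zero
  have h1 : a * t.num ^ 2 = m * (t.den : ℤ) ^ 2 := by
    have e1 : t = t.num / t.den := (Rat.num_div_den t).symm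
    rw [e1] at h
    field_simp at h
    rw [mul_comm m]
    exact_mod_cast h
  have hcop : IsCoprime ((t.den : ℤ) ^ 2) (t.num ^ 2) := by
    apply IsCoprime.pow
    rw [Int.isCoprime_iff_gcd_eq_one]
    have := t.reduced
    rw [Int.gcd_comm]
    exact this
  have h2 : (t.den : ℤ) ^ 2 ∣ a := hcop.dvd_of_dvd_mul_right ⟨m, by rw [h1]; ring⟩
  rw [sq] at h2
  have h3 := ha _ h2
  have h4 : t.den = 1 := by
    have := Int.isUnit_iff_natAbs_eq.1 h3
    simpa using this
  exact ⟨t.num, by rw [← Rat.num_div_den t, h4]; simp⟩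

section

variable {K : Type*} [Field K] [NumberField K] (hK : finrank ℚ K = 2) {a : ℤ} (ha : Squarefree a)
  (hns : ¬ IsSquare a) {θ : K} (hθ : θ ^ 2 = a)

include hK hns hθ

theorem span_pair (x : K) : ∃ p q : ℚ, x = p + q * θ := by
  have hli : LinearIndependent ℚ ![(1 : K), θ] := by
    rw [LinearIndependent.pair_iff]
    intro s t hst
    have ht : t = 0 := by
      by_contra ht
      have e1 : θ = ((-s / t : ℚ) : K) := by
        have htK : (t : K) ≠ 0 := by exact_mod_cast ht
        rw [Rat.smul_def, Rat.smul_def, mul_one] at hst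
        push_cast
        field_simp
        linear_combination hst
      apply hns
      have e2 : ((-s / t : ℚ)) ^ 2 = (a : ℚ) := by
        have : (((-s / t : ℚ) ^ 2 : ℚ) : K) = ((a : ℚ) : K) := by
          push_cast at e1 ⊢
          rw [← e1, hθ]
        exact_mod_cast this
      have e3 : IsSquare ((a : ℤ) : ℚ) := ⟨-s / t, by rw [← e2]; ring⟩
      exact Rat.isSquare_intCast_iff.1 e3
    refine ⟨?_, ht⟩
    rw [ht, zero_smul, add_zero, Rat.smul_def, mul_one] at hst
    exact_mod_cast hst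
  have hsp := hli.span_eq_top_of_card_eq_finrank' (by rw [hK]; rfl)
  have hx : x ∈ Submodule.span ℚ (Set.range ![(1 : K), θ]) := by rw [hsp]; trivial
  rw [Matrix.range_cons, Matrix.range_cons, Matrix.range_empty, Set.union_empty,
    Set.singleton_union, Submodule.mem_span_pair] at hx
  obtain ⟨p, q, h⟩ := hx
  refine ⟨p, q, ?_⟩
  rw [← h, Rat.smul_def, Rat.smul_def, mul_one]

theorem exists_embeddings : ∃ σ τ : K →+* ℂ, τ θ = -σ θ := by
  have hc : 1 < Fintype.card (K →+* ℂ) := by
    rw [NumberField.Embeddings.card K ℂ, hK]; norm_num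
  obtain ⟨σ, τ, hne⟩ := Fintype.one_lt_card_iff.1 hc
  refine ⟨σ, τ, ?_⟩
  have h1 : (τ θ) ^ 2 = (σ θ) ^ 2 := by rw [← map_pow, ← map_pow, hθ, map_intCast, map_intCast]
  rcases sq_eq_sq_iff_eq_or_eq_neg.1 h1 with h | h
  · exfalso
    apply hne
    ext x
    obtain ⟨p, q, rfl⟩ := span_pair hK hns hθ x
    rw [map_add, map_add, map_mul, map_mul, map_ratCast, map_ratCast, map_ratCast, map_ratCast, h]
  · exact h

include ha

/-- Twice an integer of `K` is in `ℤ[θ]`. -/
theorem two_mul_integer {x : K} (hx : IsIntegral ℤ x) : ∃ u v : ℤ, 2 * x = u + v * θ := by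
  obtain ⟨p, q, hpq⟩ := span_pair hK hns hθ x
  obtain ⟨σ, τ, hst⟩ := exists_embeddings hK hns hθ
  have h1 : IsIntegral ℤ (σ x) := map_isIntegral_int σ hx
  have h2 : IsIntegral ℤ (τ x) := map_isIntegral_int τ hx
  have e1 : σ x = p + q * σ θ := by rw [hpq, map_add, map_mul, map_ratCast, map_ratCast]
  have e2 : τ x = p - q * σ θ := by
    rw [hpq, map_add, map_mul, map_ratCast, map_ratCast, hst]; ring
  have e3 : (σ θ) ^ 2 = (a : ℂ) := by rw [← map_pow, hθ, map_intCast]
  have hrat : ∀ r : ℚ, IsIntegral ℤ (r : ℂ) → ∃ m : ℤ, (m : ℚ) = r := by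
    intro r hr
    have h3 : IsIntegral ℤ r := by
      have : IsIntegral ℤ (algebraMap ℚ ℂ r) := by simpa using hr
      exact (isIntegral_algebraMap_iff (algebraMap ℚ ℂ).injective).1 this
    obtain ⟨m, hm⟩ := IsIntegrallyClosed.isIntegral_iff.1 h3
    exact ⟨m, by simpa using hm⟩
  obtain ⟨u, hu⟩ := hrat (2 * p) (by
    have := h1.add h2
    rw [e1, e2] at this
    have e : ((2 * p : ℚ) : ℂ) = p + q * σ θ + (p - q * σ θ) := by push_cast; ring
    rw [e]; exact this)
  obtain ⟨w, hw⟩ := hrat (p ^ 2 - a * q ^ 2) (by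
    have := h1.mul h2
    rw [e1, e2] at this
    have e : ((p ^ 2 - a * q ^ 2 : ℚ) : ℂ) = (p + q * σ θ) * (p - q * σ θ) := by
      push_cast; linear_combination (q : ℂ) ^ 2 * e3
    rw [e]; exact this)
  obtain ⟨v, hv⟩ := rat_int ha (t := 2 * q) (m := u ^ 2 - 4 * w) (by
    push_cast; rw [hu, hw]; ring)
  refine ⟨u, v, ?_⟩
  have hu' : ((u : ℤ) : K) = 2 * (p : K) := by
    have := congrArg (fun r : ℚ => (r : K)) hu
    push_cast at this
    exact this
  have hv' : ((v : ℤ) : K) = 2 * (q : K) := by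
    have := congrArg (fun r : ℚ => (r : K)) hv
    push_cast at this
    exact this.symm
  rw [hu', hv', hpq]; ring

end

end Pool.Agent.H42.SF
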