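import Pool.Agent.H42.SF.Struct
import Pool.Agent.H42.SF.Quad

set_option autoImplicit false

/-! The class number of `ℚ(√(4^n + 1))`. -/

namespace Pool.Agent.H42.SF

open NumberField Module

/-- The order of an ideal class. -/
theorem order_class {K : Type*} [Field K] [NumberField K] (hK : finrank ℚ K = 2)
    {n : ℕ} {a y : ℤ} {ρ : ℤ_[2]} (D : Dat n a y ρ) (ha : Squarefree a) {θ : K} (hθ : θ ^ 2 = a)
    {e w G : ℕ} (hw : Odd w) (hew : 4 * (n - 1) = 2 ^ e * w)
    (hG : 3 * n + 3 ≤ 4 * G) (hGn : G + 2 < n - e) : (n - 1) ∣ classNumber K := by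
  classical
  have hn := D.hn
  have hns := D.not_sq
  -- the ring homomorphism
  have hθi : IsIntegral ℤ θ := by
    refine ⟨Polynomial.X ^ 2 - Polynomial.C a, by monicity!, ?_⟩
    rw [Polynomial.eval₂_sub, Polynomial.eval₂_pow, Polynomial.eval₂_X, Polynomial.eval₂_C, hθ]
    simp
  let θ' : 𝓞 K := ⟨θ, hθi⟩
  have hθ' : θ' * θ' = (a : 𝓞 K) := by
    apply RingOfIntegers.ext
    simp only [map_mul, map_intCast]
    rw [← hθ, sq]
    rfl
  let F : ℤ√a →+* 𝓞 K := Zsqrtd.lift ⟨θ', hθ'⟩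
  have hF : ∀ δ : ℤ√a, F δ = δ.re + δ.im * θ' := fun δ => rfl
  have hFinj : Function.Injective F :=
    Zsqrtd.lift_injective _ (fun m hm => hns ⟨m, hm⟩)
  -- integers
  have hint : ∀ x : 𝓞 K, ∃ δ : ℤ√a, 2 * x = F δ := by
    intro x
    obtain ⟨u, v, huv⟩ := two_mul_integer hK ha hns hθ (RingOfIntegers.isIntegral_coe x)
    refine ⟨⟨u, v⟩, ?_⟩
    rw [hF]
    apply RingOfIntegers.ext
    simp only [map_mul, map_add, map_intCast, map_ofNat]
    exact huv
  -- the element `γ`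
  have hy2 : (4 : K) ^ n + 1 = (y : K) ^ 2 * θ ^ 2 := by
    rw [hθ]
    have := congrArg (Int.cast : ℤ → K) D.eq
    push_cast at this
    rw [this]; ring
  obtain ⟨n', hn'⟩ : ∃ n', n = n' + 1 := ⟨n - 1, by omega⟩
  have h2n : (2 : K) ^ n = 2 * 2 ^ n' := by rw [hn', pow_succ']
  have h4n : (4 : K) ^ n = (2 * 2 ^ n') ^ 2 := by rw [← h2n, ← pow_mul, mul_comm n 2, pow_mul]; norm_num
  have hγ : ∀ s : K, s ^ 2 = 1 → IsIntegral ℤ ((1 + 2 ^ n + s * (y * θ)) / 2) := by
    intro s hs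
    refine ⟨Polynomial.X ^ 2 - Polynomial.C (1 + 2 ^ n) * Polynomial.X + Polynomial.C (2 ^ n'),
      by monicity!, ?_⟩
    simp only [Polynomial.eval₂_add, Polynomial.eval₂_sub, Polynomial.eval₂_mul, Polynomial.eval₂_pow,
      Polynomial.eval₂_X, Polynomial.eval₂_C]
    simp only [algebraMap_int_eq, map_add, map_one, map_pow, map_ofNat, h2n]
    rw [h4n] at hy2
    linear_combination (1 / 4 * (y : K) ^ 2 * θ ^ 2) * hs - (1 / 4) * hy2
  let g : 𝓞 K := ⟨(1 + 2 ^ n + 1 * (y * θ)) / 2, hγ 1 (by norm_num)⟩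
  let g' : 𝓞 K := ⟨(1 + 2 ^ n + (-1) * (y * θ)) / 2, hγ (-1) (by norm_num)⟩
  have hgF : 2 * g = F (gam n a y) := by
    rw [hF]
    apply RingOfIntegers.ext
    simp only [map_mul, map_add, map_intCast, map_ofNat]
    change 2 * ((1 + 2 ^ n + 1 * (y * θ)) / 2) = (((1 + 2 ^ n : ℤ)) : K) + (y : K) * θ
    push_cast; ring
  have hgg : g * g' = 2 ^ n' := by
    apply RingOfIntegers.ext
    simp only [map_mul, map_pow, map_ofNat]
    change ((1 + 2 ^ n + 1 * (y * θ)) / 2) * ((1 + 2 ^ n + (-1) * (y * θ)) / 2) = (2 : K) ^ n'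
    rw [h2n]
    rw [h4n] at hy2
    linear_combination (1 / 4 : K) * hy2
  have hgs : g + g' = 1 + 2 ^ n := by
    apply RingOfIntegers.ext
    simp only [map_add, map_pow, map_ofNat, map_one]
    change ((1 + 2 ^ n + 1 * (y * θ)) / 2) + ((1 + 2 ^ n + (-1) * (y * θ)) / 2) = 1 + (2 : K) ^ n
    ring
  have h2n' : (2 : 𝓞 K) ^ n = 2 * 2 ^ n' := by rw [hn', pow_succ']
  -- the ideal
  have hcop : IsCoprime (Ideal.span {g}) (Ideal.span {g'}) := by
    rw [Ideal.isCoprime_span_singleton_iff]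
    exact ⟨1 - 2 * g', 1, by linear_combination hgs - 2 * hgg + h2n'⟩
  have hprod : Ideal.span {g} * Ideal.span {g'} = (Ideal.span {(2 : 𝓞 K)}) ^ n' := by
    rw [Ideal.span_singleton_mul_span_singleton, Ideal.span_singleton_pow, hgg]
  let _ := UniqueFactorizationMonoid.toGCDMonoid (Ideal (𝓞 K))
  obtain ⟨c, hc⟩ := exists_eq_pow_of_mul_eq_pow_of_coprime hcop hprod
  have hg0 : g ≠ 0 := by
    intro h0
    rw [h0, zero_mul] at hgg
    exact (pow_ne_zero n' two_ne_zero) hgg.symm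
  have hn'0 : n' ≠ 0 := by omega
  have hc0 : c ≠ 0 := by
    rintro rfl
    rw [zero_pow hn'0] at hc
    exact hg0 (Ideal.span_singleton_eq_bot.1 hc)
  have hcm : c ∈ nonZeroDivisors (Ideal (𝓞 K)) := mem_nonZeroDivisors_of_ne_zero hc0
  let C : ClassGroup (𝓞 K) := ClassGroup.mk0 ⟨c, hcm⟩
  have hCpow : ∀ k : ℕ, C ^ k = 1 ↔ (c ^ k).IsPrincipal := by
    intro k
    rw [← ClassGroup.mk0_eq_one_iff (pow_mem hcm k), ← map_pow, SubmonoidClass.mk_pow]
  have hC1 : C ^ n' = 1 := by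
    rw [hCpow, ← hc]; exact ⟨⟨g, rfl⟩⟩
  set k := orderOf C with hk
  have hkpos : 0 < k := orderOf_pos C
  have hkdvd : k ∣ n' := orderOf_dvd_of_pow_eq_one hC1
  obtain ⟨q, hq⟩ := hkdvd
  have hq0 : 0 < q := Nat.pos_of_ne_zero (by rintro rfl; omega)
  obtain ⟨⟨β, hβ⟩⟩ := (hCpow k).1 (pow_orderOf_eq_one C)
  change c ^ k = Ideal.span {β} at hβ
  have hass : Associated (β ^ q) g := by
    rw [← Ideal.span_singleton_eq_span_singleton, ← Ideal.span_singleton_pow, ← hβ, hc, ← pow_mul, hq]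
  obtain ⟨u, hu⟩ := hass.symm
  -- pass to `ℤ[√a]`
  obtain ⟨δ, hδ⟩ := hint β
  obtain ⟨W, hW⟩ := hint (u : 𝓞 K)
  obtain ⟨V, hV⟩ := hint ((u⁻¹ : (𝓞 K)ˣ) : 𝓞 K)
  have hWV : W * V = 4 := by
    apply hFinj
    rw [map_mul, ← hW, ← hV, map_ofNat]
    have : (u : 𝓞 K) * ((u⁻¹ : (𝓞 K)ˣ) : 𝓞 K) = 1 := Units.mul_inv u
    linear_combination 4 * this
  have hδq : 4 * δ ^ q = 2 ^ q * (gam n a y * W) := by
    apply hFinj
    rw [map_mul, map_mul, map_mul, map_pow, map_pow, map_ofNat, map_ofNat, ← hδ, ← hgF, ← hW, mul_pow,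
      ← hu]
    ring
  -- the norm of `W`
  have hWn : W.norm.natAbs = 4 := by
    have e1 : W.norm.natAbs * V.norm.natAbs = 16 := by
      rw [← Int.natAbs_mul, ← Zsqrtd.norm_mul, hWV, show (4 : ℤ√a) = ((4 : ℤ) : ℤ√a) by norm_num,
        Zsqrtd.norm_intCast]
      rfl
    -- both are multiples of four
    have hfour : ∀ (u : 𝓞 K) (W : ℤ√a), 2 * u = F W → (4 : ℕ) ∣ W.norm.natAbs := by
      intro u W hW
      have hint2 : IsIntegral ℤ (u : K) := RingOfIntegers.isIntegral_coe u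
      obtain ⟨σ, τ, hst⟩ := exists_embeddings hK hns hθ
      have hcoe : (2 : K) * (u : K) = W.re + W.im * θ := by
        have := congrArg (fun x : 𝓞 K => (x : K)) hW
        rw [hF] at this
        simp only [map_mul, map_add, map_intCast, map_ofNat] at this
        exact this
      have e3 : (σ θ) ^ 2 = (a : ℂ) := by rw [← map_pow, hθ, map_intCast]
      have hs : 2 * σ u = W.re + W.im * σ θ := by
        have := congrArg σ hcoe
        rw [map_add, map_mul, map_mul, map_intCast, map_intCast, map_ofNat] at this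
        exact this
      have ht : 2 * τ u = W.re - W.im * σ θ := by
        have := congrArg τ hcoe
        rw [map_add, map_mul, map_mul, map_intCast, map_intCast, hst, map_ofNat] at this
        rw [this]; ring
      have h1 : IsIntegral ℤ (σ u * τ u) := (map_isIntegral_int σ hint2).mul (map_isIntegral_int τ hint2)
      have h2 : σ u * τ u = algebraMap ℚ ℂ ((W.norm : ℚ) / 4) := by
        rw [Zsqrtd.norm_def]
        simp only [eq_ratCast]
        push_cast
        linear_combination (1 / 4 : ℂ) * (2 * τ u) * hs + (1 / 4 : ℂ) * (W.re + W.im * σ θ) * ht -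
          (1 / 4 : ℂ) * (W.im : ℂ) ^ 2 * e3
      rw [h2] at h1
      have h3 : IsIntegral ℤ ((W.norm : ℚ) / 4) :=
        (isIntegral_algebraMap_iff (algebraMap ℚ ℂ).injective).1 h1
      obtain ⟨m, hm⟩ := IsIntegrallyClosed.isIntegral_iff.1 h3
      have h4 : W.norm = 4 * m := by
        have : (m : ℚ) = (W.norm : ℚ) / 4 := by simpa using hm
        have : (W.norm : ℚ) = 4 * m := by rw [this]; ring
        exact_mod_cast this
      rw [h4, Int.natAbs_mul]
      exact Dvd.intro _ rfl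
    obtain ⟨x1, hx1⟩ := hfour _ _ hW
    obtain ⟨x2, hx2⟩ := hfour _ _ hV
    rw [hx1, hx2] at e1
    have : x1 * x2 = 1 := by nlinarith
    have : x1 = 1 := Nat.eq_one_of_mul_eq_one_right this
    rw [hx1, this]
  obtain ⟨r', s', hr', hs', hrs⟩ := norm_four (a_mod D.hn D.eq)
    (r := W.re) (s := W.im) (by rw [← Zsqrtd.norm_def]; exact hWn)
  have hWval : D.Val W 1 1 := by
    let W' : ℤ√a := ⟨r', s'⟩
    have hWW : W = (2 : ℤ) * W' := by
      apply Zsqrtd.ext
      · simp [W', hr']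
      · simp [W', hs']
    have hPQ := D.P_mul_Q W'
    have hnW' : W'.norm = 1 ∨ W'.norm = -1 := by
      have : W'.norm.natAbs = 1 := by rw [Zsqrtd.norm_def]; exact hrs
      omega
    have hun : IsUnit (D.P W' * D.Q W') := by
      rw [hPQ]
      rcases hnW' with h | h <;> rw [h] <;> simp
    obtain ⟨h1, h2⟩ := IsUnit.mul_iff.1 hun
    refine ⟨⟨_, h2, ?_⟩, ⟨_, h1, ?_⟩⟩
    · rw [hWW, map_mul, map_intCast]; push_cast; ring
    · rw [hWW, map_mul, map_intCast]; push_cast; ring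
  have hval2 : ∀ m : ℕ, D.Val ((2 : ℤ√a) ^ m) m m := by
    intro m
    refine ⟨⟨1, isUnit_one, ?_⟩, ⟨1, isUnit_one, ?_⟩⟩
    · rw [map_pow, map_ofNat, mul_one]
    · rw [map_pow, map_ofNat, mul_one]
  -- the norm of `δ`
  have hδ2 : IsTwo δ := by
    have e1 := congrArg (fun z : ℤ√a => z.norm.natAbs) hδq
    simp only [Zsqrtd.norm_mul, Int.natAbs_mul] at e1
    have hnp : ∀ (x : ℤ√a) (m : ℕ), (x ^ m).norm = x.norm ^ m := fun x m =>
      map_pow (Zsqrtd.normMonoidHom (d := a)) x m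
    rw [hWn, D.gam_norm, hnp, hnp, Int.natAbs_pow, Int.natAbs_pow, Int.natAbs_pow] at e1
    have h4 : (4 : ℤ√a).norm.natAbs = 2 ^ 4 := by
      rw [show (4 : ℤ√a) = ((4 : ℤ) : ℤ√a) by norm_num, Zsqrtd.norm_intCast]; rfl
    have h2' : (2 : ℤ√a).norm.natAbs = 2 ^ 2 := by
      rw [show (2 : ℤ√a) = ((2 : ℤ) : ℤ√a) by norm_num, Zsqrtd.norm_intCast]; rfl
    have h22 : (2 : ℤ).natAbs = 2 := rfl
    rw [h4, h2', h22] at e1
    have hdvd : δ.norm.natAbs ∣ 2 ^ (2 * q + (n + 1 + 2)) := by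
      have h5 : δ.norm.natAbs ∣ δ.norm.natAbs ^ q := dvd_pow_self _ hq0.ne'
      have h6 : δ.norm.natAbs ^ q ∣ 2 ^ (2 * q + (n + 1 + 2)) := by
        refine ⟨2 ^ 4, ?_⟩
        calc 2 ^ (2 * q + (n + 1 + 2)) = (2 ^ 2) ^ q * (2 ^ (n + 1) * 4) := by
              rw [← pow_mul, pow_add, pow_add 2 (n + 1) 2]; norm_num
          _ = 2 ^ 4 * δ.norm.natAbs ^ q := e1.symm
          _ = δ.norm.natAbs ^ q * 2 ^ 4 := mul_comm _ _
      exact h5.trans h6
    obtain ⟨r, _, hr⟩ := (Nat.dvd_prime_pow Nat.prime_two).1 hdvd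
    exact ⟨r, hr⟩
  obtain ⟨i, j, hij⟩ := D.exists_val hδ2.ne
  have hv1 : D.Val (4 * δ ^ q) (2 + i * q) (2 + j * q) := by
    have h4 : D.Val (4 : ℤ√a) 2 2 := by
      have := hval2 2
      norm_num at this
      exact this
    exact h4.mul D (hij.pow D q)
  have hv2 : D.Val (2 ^ q * (gam n a y * W)) (q + (n + 1)) (q + (1 + 1)) :=
    (hval2 q).mul D (D.val_gam.mul D hWval)
  rw [← hδq] at hv2
  obtain ⟨ev1, ev2⟩ := hv1.unique D hv2
  have hj1 : j = 1 := by
    have : j * q = 1 * q := by omega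
    exact Nat.eq_of_mul_eq_mul_right hq0 this
  have hi1 : i = 1 + k := by
    have : i * q = (1 + k) * q := by rw [add_mul, one_mul]; rw [hn'] at ev1; nlinarith
    exact Nat.eq_of_mul_eq_mul_right hq0 this
  -- the structure theorem
  obtain ⟨N, M, G1, G2, cc, r, hG1, hG2, hprod2, hcc⟩ := D.structure hw hew hG hGn hδ2
  have hvc : D.Val ((cc : ℤ) : ℤ√a) r r := by
    have hcc' : cc = 2 ^ r ∨ cc = -2 ^ r := by
      have := Int.natAbs_eq cc
      rw [hcc] at this; push_cast at this; exact this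
    rcases hcc' with h | h
    · refine ⟨⟨1, isUnit_one, ?_⟩, ⟨1, isUnit_one, ?_⟩⟩
      · rw [map_intCast, h]; push_cast; ring
      · rw [map_intCast, h]; push_cast; ring
    · refine ⟨⟨-1, isUnit_one.neg, ?_⟩, ⟨-1, isUnit_one.neg, ?_⟩⟩
      · rw [map_intCast, h]; push_cast; ring
      · rw [map_intCast, h]; push_cast; ring
  have hG2v : D.Val (G2 ^ M) 0 0 := by
    rcases hG2 with rfl | rfl
    · have := D.val_eps.pow D M; simpa using this
    · have := (D.val_eps.star D).pow D M; simpa using this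
  have hfin : n' ∣ k := by
    rcases hG1 with rfl | rfl
    · have h1 := (hij.mul D (D.val_gam.pow D N)).mul D hG2v
      rw [hprod2] at h1
      obtain ⟨a1, a2⟩ := h1.unique D hvc
      exfalso
      rw [hn'] at a1
      have : (n' + 1) * N = n' * N + N := by ring
      omega
    · have h1 := (hij.mul D ((D.val_gam.star D).pow D N)).mul D hG2v
      rw [hprod2] at h1
      obtain ⟨a1, a2⟩ := h1.unique D hvc
      rw [hn'] at a2
      have h5 : (n' + 1) * N = n' * N + N := by ring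
      exact ⟨N, by omega⟩
  have hn1 : n - 1 = n' := by omega
  rw [hn1]
  exact hfin.trans (orderOf_dvd_card)

end Pool.Agent.H42.SF
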