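import Pool.Agent.H42.SF.Approx

set_option autoImplicit false

/-! Two small elements with the same invariants, and the count. -/

namespace Pool.Agent.H42.SF

open Finset Pell

section

variable {n : ℕ} {a y : ℤ} {ρ : ℤ_[2]} (D : Dat n a y ρ)

include D

theorem Dat.rp_mul_star (α β : ℤ√a) : rp (α * star β) = rp α * rm β := by
  rw [rp, rp, rm, ← abs_mul]
  congr 1
  simp only [Zsqrtd.re_mul, Zsqrtd.im_mul, Zsqrtd.re_star, Zsqrtd.im_star]
  push_cast
  linear_combination ((α.im : ℝ) * β.im) * D.sqrt_sq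

theorem Dat.rm_mul_star (α β : ℤ√a) : rm (α * star β) = rm α * rp β := by
  rw [rp, rm, rm, ← abs_mul]
  congr 1
  simp only [Zsqrtd.re_mul, Zsqrtd.im_mul, Zsqrtd.re_star, Zsqrtd.im_star]
  push_cast
  linear_combination ((α.im : ℝ) * β.im) * D.sqrt_sq

theorem Dat.collision_aux {e w : ℕ} (hw : Odd w) (hew : 4 * (n - 1) = 2 ^ e * w)
    {κ K μ L i j i' j' m b s A B : ℕ} {α β : ℤ√a} (hα : D.Inv κ K α i j m b)
    (hβ : D.Inv μ L β i' j' m b) (hne : α.re * β.im ≠ β.re * α.im) (hX : XX a ≤ 2 ^ s)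
    (hκ : κ ≤ A) (hK : K ≤ L + B) (hL : L ≤ K + B) (hij : j + i' ≤ i + j') :
    n - e ≤ 2 * s + A + B + 2 := by
  have hm0 : (m : ℤ) ≠ 0 := by exact_mod_cast hα.odd.pos.ne'
  have hmu : IsUnit (m : ℤ_[2]) := by
    rw [isUnit_iff]
    obtain ⟨c, hc⟩ := hα.odd
    exact ⟨c, by rw [hc]; push_cast; ring⟩
  have hb : (m : ℤ) ∣ (b : ℤ) ^ 2 - a := (mem_filter.1 hα.mem).2
  obtain ⟨c1, hc1⟩ := hα.cong
  obtain ⟨c2, hc2⟩ := hβ.cong
  obtain ⟨c3, hc3⟩ := hb
  have hdvd : ((m : ℤ) : ℤ√a) ∣ α * star β := by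
    rw [Zsqrtd.intCast_dvd]
    simp only [Zsqrtd.re_mul, Zsqrtd.im_mul, Zsqrtd.re_star, Zsqrtd.im_star]
    constructor
    · refine ⟨c1 * β.re + b * α.im * c2 + c3 * α.im * β.im, ?_⟩
      linear_combination β.re * hc1 + (b * α.im) * hc2 + (α.im * β.im) * hc3
    · refine ⟨-c1 * β.im + α.im * c2, ?_⟩
      linear_combination (-β.im) * hc1 + α.im * hc2
  obtain ⟨δ, hδ⟩ := hdvd
  obtain ⟨uQ, huQ, hQα⟩ := hα.hQ
  obtain ⟨uP, huP, hPα⟩ := hα.hP
  obtain ⟨vQ, hvQ, hQβ⟩ := hβ.hQ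
  obtain ⟨vP, hvP, hPβ⟩ := hβ.hP
  obtain ⟨m', hm'⟩ := hmu.exists_right_inv
  have hm'u : IsUnit m' := IsUnit.of_mul_eq_one (m : ℤ_[2]) (by rw [mul_comm]; exact hm')
  have hQδ : D.Q δ = 2 ^ (i + j') * (m' * (uQ * vP)) := by
    have e1 : D.Q (α * star β) = m * D.Q δ := by rw [hδ, map_mul, map_intCast]; push_cast; rfl
    rw [map_mul, D.Q_star, hQα, hPβ] at e1
    rw [pow_add]
    linear_combination (-m') * e1 - D.Q δ * hm'
  have hPδ : D.P δ = 2 ^ (j + i') * (m' * (uP * vQ)) := by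
    have e1 : D.P (α * star β) = m * D.P δ := by rw [hδ, map_mul, map_intCast]; push_cast; rfl
    rw [map_mul, D.P_star, hPα, hQβ] at e1
    rw [pow_add]
    linear_combination (-m') * e1 - D.P δ * hm'
  have hnorm : ∃ S, δ.norm.natAbs = 2 ^ S := by
    refine ⟨i + j + (i' + j'), ?_⟩
    have e1 := congrArg (fun z : ℤ√a => z.norm.natAbs) hδ
    simp only [Zsqrtd.norm_mul, Int.natAbs_mul, Zsqrtd.norm_conj, Zsqrtd.norm_intCast] at e1
    rw [hα.norm, hβ.norm, Int.natAbs_natCast] at e1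
    have hmpos : 0 < m := hα.odd.pos
    have e2 : m * m * δ.norm.natAbs = m * m * 2 ^ (i + j + (i' + j')) := by
      rw [← e1, pow_add]; ring
    exact Nat.eq_of_mul_eq_mul_left (by positivity) e2
  have him : δ.im ≠ 0 := by
    intro h0
    apply hne
    have e1 := congrArg Zsqrtd.im hδ
    simp only [Zsqrtd.im_mul, Zsqrtd.re_star, Zsqrtd.im_star, Zsqrtd.re_intCast, Zsqrtd.im_intCast,
      zero_mul, add_zero, h0, mul_zero] at e1
    linear_combination -e1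
  have hkey := D.key hw hew δ him (i + j') (j + i') hij _ _ (hm'u.mul (huQ.mul hvP))
    (hm'u.mul (huP.mul hvQ)) hQδ hPδ hnorm
  set J := j + i' with hJ
  have hmR : (1 : ℝ) ≤ m := by exact_mod_cast hα.odd.pos
  have hrp : rp δ ≤ rp α * rm β := by
    rw [← D.rp_mul_star, hδ]
    have : rp (((m : ℤ) : ℤ√a) * δ) = m * rp δ := by
      rw [rp, rp, ← abs_of_nonneg (by positivity : (0 : ℝ) ≤ m), ← abs_mul]
      congr 1
      simp only [Zsqrtd.re_mul, Zsqrtd.im_mul, Zsqrtd.re_intCast, Zsqrtd.im_intCast]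
      push_cast; ring
    rw [this]
    have : 0 ≤ rp δ := abs_nonneg _
    nlinarith
  have hrm : rm δ ≤ rm α * rp β := by
    rw [← D.rm_mul_star, hδ]
    have : rm (((m : ℤ) : ℤ√a) * δ) = m * rm δ := by
      rw [rm, rm, ← abs_of_nonneg (by positivity : (0 : ℝ) ≤ m), ← abs_mul]
      congr 1
      simp only [Zsqrtd.re_mul, Zsqrtd.im_mul, Zsqrtd.re_intCast, Zsqrtd.im_intCast]
      push_cast; ring
    rw [this]
    have : 0 ≤ rm δ := abs_nonneg _
    nlinarith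
  change (2 : ℝ) ^ (2 * J + (n - e)) ≤ (rp δ + 2 ^ J) * (rm δ + 2 ^ J) at hkey
  -- bounds in terms of powers of two
  have hμJ : μ ≤ J := by have := hβ.ki; omega
  have h2s : (0 : ℝ) < 2 ^ s := by positivity
  have b1 : rp α ≤ 2 ^ K * 2 ^ s := hα.good.large.trans (by gcongr)
  have b2 : rm α ≤ 2 ^ κ / 2 ^ K := hα.good.small
  have b3 : rp β ≤ 2 ^ L * 2 ^ s := hβ.good.large.trans (by gcongr)
  have b4 : rm β ≤ 2 ^ μ / 2 ^ L := hβ.good.small
  have n1 : 0 ≤ rp α := abs_nonneg _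
  have n2 : 0 ≤ rm α := abs_nonneg _
  have n3 : 0 ≤ rp β := abs_nonneg _
  have n4 : 0 ≤ rm β := abs_nonneg _
  have n5 : 0 ≤ rp δ := abs_nonneg _
  have n6 : 0 ≤ rm δ := abs_nonneg _
  have t1 : rp δ ≤ 2 ^ (s + B) * 2 ^ J := by
    calc rp δ ≤ rp α * rm β := hrp
      _ ≤ (2 ^ K * 2 ^ s) * (2 ^ μ / 2 ^ L) := mul_le_mul b1 b4 n4 (by positivity)
      _ ≤ (2 ^ (L + B) * 2 ^ s) * (2 ^ J / 2 ^ L) := by
          gcongr
          · norm_num
          · norm_num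
      _ = 2 ^ (s + B) * 2 ^ J := by rw [pow_add (2 : ℝ) L B, pow_add (2 : ℝ) s B]; field_simp
  have t2 : rm δ ≤ 2 ^ (s + A + B) := by
    calc rm δ ≤ rm α * rp β := hrm
      _ ≤ (2 ^ κ / 2 ^ K) * (2 ^ L * 2 ^ s) := mul_le_mul b2 b3 n3 (by positivity)
      _ ≤ (2 ^ A / 2 ^ K) * (2 ^ (K + B) * 2 ^ s) := by
          gcongr
          · norm_num
          · norm_num
      _ = 2 ^ (s + A + B) := by rw [pow_add, pow_add, pow_add]; field_simp
  have t3 : rp δ * rm δ ≤ 2 ^ (2 * s + A) * (2 ^ J * 2 ^ J) := by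
    calc rp δ * rm δ ≤ (rp α * rm β) * (rm α * rp β) := mul_le_mul hrp hrm n6 (by positivity)
      _ = (rp α * rm α) * (rp β * rm β) := by ring
      _ ≤ ((2 ^ K * 2 ^ s) * (2 ^ κ / 2 ^ K)) * ((2 ^ L * 2 ^ s) * (2 ^ μ / 2 ^ L)) := by
          apply mul_le_mul
          · exact mul_le_mul b1 b2 n2 (by positivity)
          · exact mul_le_mul b3 b4 n4 (by positivity)
          · positivity
          · positivity
      _ = 2 ^ (2 * s) * (2 ^ κ * 2 ^ μ) := by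
          rw [two_mul, pow_add]; field_simp
      _ ≤ 2 ^ (2 * s) * (2 ^ A * (2 ^ J * 2 ^ J)) := by
          have h1 : (2 : ℝ) ^ κ ≤ 2 ^ A := pow_le_pow_right₀ (by norm_num) hκ
          have h2 : (2 : ℝ) ^ μ ≤ 2 ^ J := pow_le_pow_right₀ (by norm_num) hμJ
          have h3 : (1 : ℝ) ≤ 2 ^ J := one_le_pow₀ (by norm_num)
          have h4 : (2 : ℝ) ^ μ ≤ 2 ^ J * 2 ^ J := h2.trans (by nlinarith)
          gcongr
      _ = 2 ^ (2 * s + A) * (2 ^ J * 2 ^ J) := by rw [pow_add]; ring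
  have hJ1 : (1 : ℝ) ≤ 2 ^ J := one_le_pow₀ (by norm_num)
  have hfin : (2 : ℝ) ^ (2 * J + (n - e)) ≤ 2 ^ (2 * J + (2 * s + A + B + 2)) := by
    refine hkey.trans ?_
    have g1 : rp δ * 2 ^ J ≤ 2 ^ (2 * s + A + B) * (2 ^ J * 2 ^ J) := by
      calc rp δ * 2 ^ J ≤ (2 ^ (s + B) * 2 ^ J) * 2 ^ J := by gcongr
        _ ≤ (2 ^ (2 * s + A + B) * 2 ^ J) * 2 ^ J := by
            gcongr
            · norm_num
            · omega
        _ = _ := by ring
    have g2 : rm δ * 2 ^ J ≤ 2 ^ (2 * s + A + B) * (2 ^ J * 2 ^ J) := by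
      calc rm δ * 2 ^ J ≤ 2 ^ (s + A + B) * 2 ^ J := by gcongr
        _ ≤ 2 ^ (2 * s + A + B) * 2 ^ J := by
            gcongr
            · norm_num
            · omega
        _ ≤ 2 ^ (2 * s + A + B) * (2 ^ J * 2 ^ J) := by
            apply mul_le_mul_of_nonneg_left _ (by positivity)
            nlinarith
    have g3 : rp δ * rm δ ≤ 2 ^ (2 * s + A + B) * (2 ^ J * 2 ^ J) := by
      exact t3.trans (mul_le_mul_of_nonneg_right (pow_le_pow_right₀ (by norm_num) (by omega))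
        (by positivity))
    have g4 : (2 : ℝ) ^ J * 2 ^ J ≤ 2 ^ (2 * s + A + B) * (2 ^ J * 2 ^ J) := by
      have : (1 : ℝ) ≤ 2 ^ (2 * s + A + B) := one_le_pow₀ (by norm_num)
      nlinarith [mul_pos (lt_of_lt_of_le one_pos hJ1) (lt_of_lt_of_le one_pos hJ1)]
    have g5 : (2 : ℝ) ^ (2 * J + (2 * s + A + B + 2)) = 4 * (2 ^ (2 * s + A + B) * (2 ^ J * 2 ^ J)) := by
      rw [pow_add, pow_add 2 (2 * s + A + B) 2, two_mul J, pow_add 2 J J]; ring
    rw [g5]
    nlinarith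
  have := (pow_le_pow_iff_right₀ (by norm_num : (1 : ℝ) < 2)).1 hfin
  omega

theorem Dat.collision {e w : ℕ} (hw : Odd w) (hew : 4 * (n - 1) = 2 ^ e * w)
    {κ K μ L i j i' j' m b s A B : ℕ} {α β : ℤ√a} (hα : D.Inv κ K α i j m b)
    (hβ : D.Inv μ L β i' j' m b) (hne : α.re * β.im ≠ β.re * α.im) (hX : XX a ≤ 2 ^ s)
    (hκ : κ ≤ A) (hμ : μ ≤ A) (hK : K ≤ L + B) (hL : L ≤ K + B) :
    n - e ≤ 2 * s + A + B + 2 := by
  rcases le_total (j + i') (i + j') with h | h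
  · exact D.collision_aux hw hew hα hβ hne hX hκ hK hL h
  · exact D.collision_aux hw hew hβ hα (fun h' => hne h'.symm) hX hμ hL hK (by omega)

/-- Small elements with the same direction have nearly the same parameters. -/
theorem Dat.same {κ K μ L i j i' j' m b s : ℕ} {α β : ℤ√a} (hα : D.Inv κ K α i j m b)
    (hβ : D.Inv μ L β i' j' m b) (heq : α.re * β.im = β.re * α.im) (hX : XX a < 2 ^ s) :
    κ < μ + 2 * s ∧ (κ = μ → K < L + s) := by
  obtain ⟨uQ, huQ, hQα⟩ := hα.hQ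
  obtain ⟨uP, huP, hPα⟩ := hα.hP
  obtain ⟨vQ, hvQ, hQβ⟩ := hβ.hQ
  obtain ⟨vP, hvP, hPβ⟩ := hβ.hP
  have hmR : (1 : ℝ) ≤ m := by exact_mod_cast hα.odd.pos
  have hcast : (α.re : ℤ_[2]) * β.im = β.re * α.im := by exact_mod_cast congrArg (Int.cast : ℤ → ℤ_[2]) heq
  have h1 : D.Q α * D.P β = D.P α * D.Q β := by
    rw [D.P_apply, D.P_apply, D.Q_apply, D.Q_apply]
    linear_combination (2 * ρ) * hcast
  have hsum : i + j' = j + i' := by
    rw [hQα, hPα, hQβ, hPβ] at h1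
    apply pow_eq_pow (huQ.mul hvP) (huP.mul hvQ)
    rw [pow_add, pow_add]
    linear_combination h1
  have hs1 : (i - κ) + j < s := by
    have h3 : (2 : ℝ) ^ (i - κ + j) < 2 ^ s := by
      have := hα.bound
      have h4 : (2 : ℝ) ^ (i - κ + j) ≤ 2 ^ (i - κ + j) * m := by
        have : (0 : ℝ) < 2 ^ (i - κ + j) := by positivity
        nlinarith
      linarith
    exact (pow_lt_pow_iff_right₀ (by norm_num : (1 : ℝ) < 2)).1 h3
  have hs2 : (i' - μ) + j' < s := by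
    have h3 : (2 : ℝ) ^ (i' - μ + j') < 2 ^ s := by
      have := hβ.bound
      have h4 : (2 : ℝ) ^ (i' - μ + j') ≤ 2 ^ (i' - μ + j') * m := by
        have : (0 : ℝ) < 2 ^ (i' - μ + j') := by positivity
        nlinarith
      linarith
    exact (pow_lt_pow_iff_right₀ (by norm_num : (1 : ℝ) < 2)).1 h3
  have hki := hα.ki
  have hki' := hβ.ki
  refine ⟨by omega, ?_⟩
  rintro rfl
  have hR : rp α * rm β = rm α * rp β := by
    rw [rp, rm, rm, rp, ← abs_mul, ← abs_mul]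
    congr 1
    have hcR : (α.re : ℝ) * β.im = β.re * α.im := by exact_mod_cast congrArg (Int.cast : ℤ → ℝ) heq
    linear_combination (-2 * √(a : ℝ)) * hcR
  have nα : (2 : ℝ) ^ κ ≤ rp α * rm α := by
    rw [D.rp_mul_rm, ← Int.cast_abs, Int.abs_eq_natAbs, hα.norm]
    push_cast
    have : (2 : ℝ) ^ κ ≤ 2 ^ (i + j) := pow_le_pow_right₀ (by norm_num) (by omega)
    exact this.trans (le_mul_of_one_le_right (by positivity) hmR)
  have nβ : (2 : ℝ) ^ κ ≤ rp β * rm β := by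
    rw [D.rp_mul_rm, ← Int.cast_abs, Int.abs_eq_natAbs, hβ.norm]
    push_cast
    have : (2 : ℝ) ^ κ ≤ 2 ^ (i' + j') := pow_le_pow_right₀ (by norm_num) (by omega)
    exact this.trans (le_mul_of_one_le_right (by positivity) hmR)
  have n1 : 0 ≤ rp α := abs_nonneg _
  have n2 : 0 ≤ rm α := abs_nonneg _
  have n3 : 0 ≤ rp β := abs_nonneg _
  have n4 : 0 ≤ rm β := abs_nonneg _
  have hXp := XX_pos a
  -- `rm α ≤ 2^κ / 2^K`, `rp α ≥ 2^K`
  have c1 : (2 : ℝ) ^ K ≤ rp α := by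
    have h5 : (2 : ℝ) ^ κ ≤ rp α * (2 ^ κ / 2 ^ K) :=
      nα.trans (mul_le_mul_of_nonneg_left hα.good.small n1)
    have h6 : (2 : ℝ) ^ κ * 2 ^ K ≤ 2 ^ κ * rp α := by
      rw [mul_div_assoc', le_div_iff₀ (by positivity)] at h5
      linarith
    exact le_of_mul_le_mul_left h6 (by positivity)
  have c2 : (2 : ℝ) ^ κ ≤ (2 ^ L * XX a) * rm β :=
    nβ.trans (mul_le_mul_of_nonneg_right hβ.good.large n4)
  -- `2^κ 2^K ≤ 2^L X rm β rp α = 2^L X rm α rp β ≤ (2^L X)² 2^κ / 2^K`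
  have c3 : (2 : ℝ) ^ κ * (2 ^ K * 2 ^ K) ≤ 2 ^ κ * ((2 ^ L * XX a) * (2 ^ L * XX a)) := by
    have h7 : (2 : ℝ) ^ κ * 2 ^ K ≤ ((2 ^ L * XX a) * rm β) * rp α :=
      mul_le_mul c2 c1 (by positivity) (by positivity)
    have h8 : ((2 ^ L * XX a) * rm β) * rp α = (2 ^ L * XX a) * (rm α * rp β) := by
      rw [← hR]; ring
    have h9 : (2 ^ L * XX a) * (rm α * rp β) ≤ (2 ^ L * XX a) * ((2 ^ κ / 2 ^ K) * (2 ^ L * XX a)) := by
      apply mul_le_mul_of_nonneg_left _ (by positivity)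
      exact mul_le_mul hα.good.small hβ.good.large n3 (by positivity)
    have h10 := (h7.trans_eq h8).trans h9
    have h11 : (2 ^ L * XX a) * ((2 ^ κ / 2 ^ K) * (2 ^ L * XX a)) =
        (2 ^ κ * ((2 ^ L * XX a) * (2 ^ L * XX a))) / 2 ^ K := by field_simp
    rw [h11, le_div_iff₀ (by positivity)] at h10
    linarith
  have c4 := le_of_mul_le_mul_left c3 (by positivity)
  have c5 : (2 : ℝ) ^ K ≤ 2 ^ L * XX a := by
    by_contra hlt
    push Not at hlt
    have : 0 < (2 : ℝ) ^ L * XX a := by positivity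
    nlinarith
  have c6 : (2 : ℝ) ^ K < 2 ^ (L + s) := by
    rw [pow_add]
    exact lt_of_le_of_lt c5 (mul_lt_mul_of_pos_left hX (by positivity))
  exact (pow_lt_pow_iff_right₀ (by norm_num : (1 : ℝ) < 2)).1 c6

/-- The count. -/
theorem Dat.count {e w : ℕ} (hw : Odd w) (hew : 4 * (n - 1) = 2 ^ e * w) (ha : Squarefree a)
    {s J T : ℕ} (hX : XX a < 2 ^ s) (h : 2 * s + 2 * s * J + s * T + 2 < n - e) :
    ((J * T : ℕ) : ℝ) ≤ (⌊XX a⌋₊ : ℝ) * (1 + Real.log ⌊XX a⌋₊) := by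
  classical
  refine le_trans ?_ (card_pairs ha _)
  by_contra hlt
  push Not at hlt
  have hlt' : (pairs a ⌊XX a⌋₊).card < (range J ×ˢ range T).card := by
    rw [card_product, card_range, card_range]; exact_mod_cast hlt
  have hex : ∀ c : ℕ × ℕ, c ∈ range J ×ˢ range T → ∃ (α : ℤ√a) (i j m b : ℕ),
      D.Inv (2 * s * c.1) (s * J + s * c.2) α i j m b := by
    intro c hc
    rw [mem_product, mem_range, mem_range] at hc
    apply D.exists_inv
    nlinarith [Nat.mul_le_mul_left s hc.1.le]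
  choose! α i j m b hinv using hex
  have hmaps : ∀ c ∈ range J ×ˢ range T, (⟨m c, b c⟩ : Σ _ : ℕ, ℕ) ∈ pairs a ⌊XX a⌋₊ := by
    intro c hc
    have hi := hinv c hc
    rw [pairs, mem_sigma, mem_filter, mem_Ioc]
    refine ⟨⟨⟨hi.odd.pos, ?_⟩, hi.odd⟩, hi.mem⟩
    apply Nat.le_floor
    have := hi.bound
    have h1 : (1 : ℝ) ≤ 2 ^ (i c - 2 * s * c.1 + j c) := one_le_pow₀ (by norm_num)
    have h2 : (0 : ℝ) ≤ m c := by positivity
    nlinarith
  obtain ⟨c, hc, c', hc', hcc, hf⟩ := exists_ne_map_eq_of_card_lt_of_maps_to hlt' hmaps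
  have hi := hinv c hc
  have hi' := hinv c' hc'
  have hmm : m c = m c' := congrArg Sigma.fst hf
  have hbb : b c = b c' := by
    have := congrArg Sigma.snd hf
    simpa using this
  rw [← hmm, ← hbb] at hi'
  rw [mem_product, mem_range, mem_range] at hc hc'
  by_cases heq : (α c).re * (α c').im = (α c').re * (α c).im
  · obtain ⟨p1, p2⟩ := D.same hi hi' heq hX
    obtain ⟨q1, q2⟩ := D.same hi' hi heq.symm hX
    have hs0 : 0 < s := by
      rcases Nat.eq_zero_or_pos s with h0 | h0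
      · subst h0; simp at p1
      · exact h0
    have e1 : c.1 = c'.1 := by
      have r1 : 2 * s * c.1 < 2 * s * (c'.1 + 1) := by linarith
      have r2 : 2 * s * c'.1 < 2 * s * (c.1 + 1) := by linarith
      have r3 := Nat.lt_of_mul_lt_mul_left r1
      have r4 := Nat.lt_of_mul_lt_mul_left r2
      omega
    have t1 := p2 (by rw [e1])
    have t2 := q2 (by rw [e1])
    have e2 : c.2 = c'.2 := by
      have r1 : s * c.2 < s * (c'.2 + 1) := by linarith
      have r2 : s * c'.2 < s * (c.2 + 1) := by linarith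
      have r3 := Nat.lt_of_mul_lt_mul_left r1
      have r4 := Nat.lt_of_mul_lt_mul_left r2
      omega
    exact hcc (Prod.ext e1 e2)
  · have hfin := D.collision (A := 2 * s * J) (B := s * T) hw hew hi hi' heq hX.le
      (Nat.mul_le_mul_left _ hc.1.le) (Nat.mul_le_mul_left _ hc'.1.le)
      (by have := Nat.mul_le_mul_left s hc.2.le; omega)
      (by have := Nat.mul_le_mul_left s hc'.2.le; omega)
    omega

end

end Pool.Agent.H42.SF
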