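import Pool.Agent.H42.SF.Collision

set_option autoImplicit false

/-! The refined count, which loses only one logarithm. -/

namespace Pool.Agent.H42.SF

open Finset Pell

/-- Pairs of integers which pairwise differ by at most `r` in both coordinates. -/
theorem card_box (S : Finset (ℕ × ℕ)) (r : ℕ)
    (h : ∀ c ∈ S, ∀ c' ∈ S, c.1 ≤ c'.1 + r ∧ c.2 ≤ c'.2 + r) : S.card ≤ (r + 1) ^ 2 := by
  rcases S.eq_empty_or_nonempty with h0 | hne
  · rw [h0]; simp
  obtain ⟨c0, hc0, hmin0⟩ := S.exists_min_image (fun c => c.1) hne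
  obtain ⟨c1, hc1, hmin1⟩ := S.exists_min_image (fun c => c.2) hne
  have hsub : S ⊆ Icc c0.1 (c0.1 + r) ×ˢ Icc c1.2 (c1.2 + r) := by
    intro c hc
    rw [mem_product, mem_Icc, mem_Icc]
    exact ⟨⟨hmin0 c hc, (h c hc c0 hc0).1⟩, ⟨hmin1 c hc, (h c hc c1 hc1).2⟩⟩
  refine (card_le_card hsub).trans ?_
  rw [card_product, Nat.card_Icc, Nat.card_Icc, sq]
  apply le_of_eq
  congr 1 <;> omega

theorem sum_odd_sq (k : ℕ) :
    ∑ t ∈ range k, (2 * (t : ℝ) + 1) ^ 2 / 2 ^ t = 34 - (8 * (k : ℝ) ^ 2 + 24 * k + 34) / 2 ^ k := by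
  induction k with
  | zero => simp
  | succ k ih =>
    rw [sum_range_succ, ih, pow_succ]
    push_cast
    field_simp
    ring

section

variable {n : ℕ} {a y : ℤ} {ρ : ℤ_[2]} (D : Dat n a y ρ)

include D

theorem Dat.same' {κ K μ L i j i' j' m b t : ℕ} {α β : ℤ√a} (hα : D.Inv κ K α i j m b)
    (hβ : D.Inv μ L β i' j' m b) (heq : α.re * β.im = β.re * α.im) (hX : XX a < 2 ^ (t + 1) * m) :
    κ ≤ μ + 2 * t ∧ K ≤ L + 2 * t := by
  obtain ⟨uQ, huQ, hQα⟩ := hα.hQ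
  obtain ⟨uP, huP, hPα⟩ := hα.hP
  obtain ⟨vQ, hvQ, hQβ⟩ := hβ.hQ
  obtain ⟨vP, hvP, hPβ⟩ := hβ.hP
  have hmR : (1 : ℝ) ≤ m := by exact_mod_cast hα.odd.pos
  have hm0 : (0 : ℝ) < m := by linarith
  have hcast : (α.re : ℤ_[2]) * β.im = β.re * α.im := by exact_mod_cast congrArg (Int.cast : ℤ → ℤ_[2]) heq
  have h1 : D.Q α * D.P β = D.P α * D.Q β := by
    rw [D.P_apply, D.P_apply, D.Q_apply, D.Q_apply]
    linear_combination (2 * ρ) * hcast
  have hsum : i + j' = j + i' := by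
    rw [hQα, hPα, hQβ, hPβ] at h1
    apply pow_eq_pow (huQ.mul hvP) (huP.mul hvQ)
    rw [pow_add, pow_add]
    linear_combination h1
  have hs1 : (i - κ) + j ≤ t := by
    have h3 : (2 : ℝ) ^ (i - κ + j) * m < 2 ^ (t + 1) * m := lt_of_le_of_lt hα.bound hX
    have h4 := lt_of_mul_lt_mul_right h3 hm0.le
    have := (pow_lt_pow_iff_right₀ (by norm_num : (1 : ℝ) < 2)).1 h4
    omega
  have hs2 : (i' - μ) + j' ≤ t := by
    have h3 : (2 : ℝ) ^ (i' - μ + j') * m < 2 ^ (t + 1) * m := lt_of_le_of_lt hβ.bound hX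
    have h4 := lt_of_mul_lt_mul_right h3 hm0.le
    have := (pow_lt_pow_iff_right₀ (by norm_num : (1 : ℝ) < 2)).1 h4
    omega
  have hki := hα.ki
  have hki' := hβ.ki
  have hκμ : κ ≤ μ + 2 * t := by omega
  refine ⟨hκμ, ?_⟩
  have hR : rp α * rm β = rm α * rp β := by
    rw [rp, rm, rm, rp, ← abs_mul, ← abs_mul]
    congr 1
    have hcR : (α.re : ℝ) * β.im = β.re * α.im := by exact_mod_cast congrArg (Int.cast : ℤ → ℝ) heq
    linear_combination (-2 * √(a : ℝ)) * hcR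
  have nα : (2 : ℝ) ^ κ * m ≤ rp α * rm α := by
    rw [D.rp_mul_rm, ← Int.cast_abs, Int.abs_eq_natAbs, hα.norm]
    push_cast
    exact mul_le_mul_of_nonneg_right (pow_le_pow_right₀ (by norm_num) (by omega)) hm0.le
  have nβ : (2 : ℝ) ^ μ * m ≤ rp β * rm β := by
    rw [D.rp_mul_rm, ← Int.cast_abs, Int.abs_eq_natAbs, hβ.norm]
    push_cast
    exact mul_le_mul_of_nonneg_right (pow_le_pow_right₀ (by norm_num) (by omega)) hm0.le
  have n1 : 0 ≤ rp α := abs_nonneg _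
  have n2 : 0 ≤ rm α := abs_nonneg _
  have n3 : 0 ≤ rp β := abs_nonneg _
  have n4 : 0 ≤ rm β := abs_nonneg _
  have hXp := XX_pos a
  have c1 : (2 : ℝ) ^ K * m ≤ rp α := by
    have h5 : (2 : ℝ) ^ κ * m ≤ rp α * (2 ^ κ / 2 ^ K) :=
      nα.trans (mul_le_mul_of_nonneg_left hα.good.small n1)
    have h6 : (2 : ℝ) ^ κ * (2 ^ K * m) ≤ 2 ^ κ * rp α := by
      rw [mul_div_assoc', le_div_iff₀ (by positivity)] at h5
      linarith
    exact le_of_mul_le_mul_left h6 (by positivity)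
  have c2 : (2 : ℝ) ^ μ * m ≤ (2 ^ L * XX a) * rm β :=
    nβ.trans (mul_le_mul_of_nonneg_right hβ.good.large n4)
  have c3 : (2 : ℝ) ^ μ * (2 ^ K * 2 ^ K * (m * m)) ≤ 2 ^ κ * ((2 ^ L * XX a) * (2 ^ L * XX a)) := by
    have h7 : ((2 : ℝ) ^ μ * m) * (2 ^ K * m) ≤ ((2 ^ L * XX a) * rm β) * rp α :=
      mul_le_mul c2 c1 (by positivity) (by positivity)
    have h8 : ((2 ^ L * XX a) * rm β) * rp α = (2 ^ L * XX a) * (rm α * rp β) := by
      rw [← hR]; ring
    have h9 : (2 ^ L * XX a) * (rm α * rp β) ≤ (2 ^ L * XX a) * ((2 ^ κ / 2 ^ K) * (2 ^ L * XX a)) := by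
      apply mul_le_mul_of_nonneg_left _ (by positivity)
      exact mul_le_mul hα.good.small hβ.good.large n3 (by positivity)
    have h10 := (h7.trans_eq h8).trans h9
    have h11 : (2 ^ L * XX a) * ((2 ^ κ / 2 ^ K) * (2 ^ L * XX a)) =
        (2 ^ κ * ((2 ^ L * XX a) * (2 ^ L * XX a))) / 2 ^ K := by field_simp
    rw [h11, le_div_iff₀ (by positivity)] at h10
    linarith
  have c4 : (2 : ℝ) ^ μ * (2 ^ K * 2 ^ K * (m * m)) <
      2 ^ μ * ((2 ^ (L + 2 * t + 1) * 2 ^ (L + 2 * t + 1)) * (m * m)) := by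
    calc (2 : ℝ) ^ μ * (2 ^ K * 2 ^ K * (m * m)) ≤ 2 ^ κ * ((2 ^ L * XX a) * (2 ^ L * XX a)) := c3
      _ < 2 ^ κ * ((2 ^ L * (2 ^ (t + 1) * m)) * (2 ^ L * (2 ^ (t + 1) * m))) := by gcongr
      _ ≤ 2 ^ (μ + 2 * t) * ((2 ^ L * (2 ^ (t + 1) * m)) * (2 ^ L * (2 ^ (t + 1) * m))) := by
          apply mul_le_mul_of_nonneg_right (pow_le_pow_right₀ (by norm_num) hκμ) (by positivity)
      _ = 2 ^ μ * ((2 ^ (L + 2 * t + 1) * 2 ^ (L + 2 * t + 1)) * (m * m)) := by
          rw [show L + 2 * t + 1 = L + (t + 1) + t by ring, pow_add 2 (L + (t + 1)) t,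
            pow_add 2 L (t + 1), pow_add 2 μ (2 * t), two_mul, pow_add 2 t t]
          ring
  have c5 := lt_of_mul_lt_mul_left c4 (by positivity)
  have c6 := lt_of_mul_lt_mul_right c5 (by positivity)
  have c7 : (2 : ℝ) ^ (K + K) < 2 ^ ((L + 2 * t + 1) + (L + 2 * t + 1)) := by
    rw [pow_add, pow_add]; exact c6
  have := (pow_lt_pow_iff_right₀ (by norm_num : (1 : ℝ) < 2)).1 c7
  omega

/-- The refined count. -/
theorem Dat.count2 {e w : ℕ} (hw : Odd w) (hew : 4 * (n - 1) = 2 ^ e * w) (ha : Squarefree a)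
    {s J T : ℕ} (hX : XX a < 2 ^ s) (h : 2 * s + J + T + 2 < n - e) :
    ((J * T : ℕ) : ℝ) ≤ 34 * (XX a * (1 + Real.log (XX a))) := by
  classical
  have hXp := XX_pos a
  have hX1 : 1 ≤ XX a := by rw [XX]; have := Real.sqrt_nonneg (a : ℝ); linarith
  have hex : ∀ c : ℕ × ℕ, ∃ (α : ℤ√a) (i j m b : ℕ), c.1 < J →
      D.Inv c.1 (J + c.2) α i j m b := by
    intro c
    by_cases hc : c.1 < J
    · obtain ⟨α, i, j, m, b, h⟩ := D.exists_inv (κ := c.1) (K := J + c.2) (by omega)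
      exact ⟨α, i, j, m, b, fun _ => h⟩
    · exact ⟨0, 0, 0, 0, 0, fun h => absurd h hc⟩
  choose α i j m b hinv using hex
  -- the level of a pair
  have hlev : ∀ c ∈ range J ×ˢ range T, ∃ t < s, (2 : ℝ) ^ t * m c ≤ XX a ∧ XX a < 2 ^ (t + 1) * m c := by
    intro c hc
    rw [mem_product, mem_range, mem_range] at hc
    have hi := hinv c hc.1
    have hm1 : (1 : ℝ) ≤ m c := by exact_mod_cast hi.odd.pos
    have hmX : (m c : ℝ) ≤ XX a := by
      have := hi.bound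
      have h1 : (1 : ℝ) ≤ 2 ^ (i c - c.1 + j c) := one_le_pow₀ (by norm_num)
      nlinarith
    have hd : 1 ≤ XX a / m c := by rw [le_div_iff₀ (by linarith)]; linarith
    obtain ⟨t, ht1, ht2⟩ := exists_nat_pow_near hd (by norm_num : (1 : ℝ) < 2)
    rw [le_div_iff₀ (by linarith)] at ht1
    rw [div_lt_iff₀ (by linarith)] at ht2
    refine ⟨t, ?_, ht1, ht2⟩
    have h2 : (2 : ℝ) ^ t < 2 ^ s := by
      refine lt_of_le_of_lt ?_ hX
      have : (0 : ℝ) < 2 ^ t := by positivity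
      nlinarith
    exact (pow_lt_pow_iff_right₀ (by norm_num : (1 : ℝ) < 2)).1 h2
  choose! lev hlev1 hlev2 hlev3 using hlev
  have hsum : (range J ×ˢ range T).card =
      ∑ t ∈ range s, ((range J ×ˢ range T).filter fun c => lev c = t).card :=
    card_eq_sum_card_fiberwise (fun c hc => mem_coe.2 (mem_range.2 (hlev1 c (mem_coe.1 hc))))
  have hpart : ∀ t ∈ range s, ((((range J ×ˢ range T).filter fun c => lev c = t).card : ℕ) : ℝ) ≤
      (2 * (t : ℝ) + 1) ^ 2 / 2 ^ t * (XX a * (1 + Real.log (XX a))) := by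
    intro t _
    set S := (range J ×ˢ range T).filter fun c => lev c = t with hS
    have hmaps : ∀ c ∈ S, (⟨m c, b c⟩ : Σ _ : ℕ, ℕ) ∈ pairs a ⌊XX a / 2 ^ t⌋₊ := by
      intro c hc
      rw [hS, mem_filter] at hc
      have hc1 := hc.1
      rw [mem_product, mem_range, mem_range] at hc1
      have hi := hinv c hc1.1
      rw [pairs, mem_sigma, mem_filter, mem_Ioc]
      refine ⟨⟨⟨hi.odd.pos, ?_⟩, hi.odd⟩, hi.mem⟩
      apply Nat.le_floor
      have := hlev2 c hc.1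
      rw [hc.2] at this
      rw [le_div_iff₀ (by positivity)]
      linarith
    have hfib : ∀ x ∈ pairs a ⌊XX a / 2 ^ t⌋₊,
        (S.filter fun c => (⟨m c, b c⟩ : Σ _ : ℕ, ℕ) = x).card ≤ (2 * t + 1) ^ 2 := by
      intro x _
      apply card_box
      intro c hc c' hc'
      rw [mem_filter, hS, mem_filter] at hc hc'
      have hf : (⟨m c, b c⟩ : Σ _ : ℕ, ℕ) = ⟨m c', b c'⟩ := by rw [hc.2, hc'.2]
      have hmm : m c = m c' := congrArg Sigma.fst hf
      have hbb : b c = b c' := by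
        have := congrArg Sigma.snd hf
        simpa using this
      have hc1 := hc.1.1
      have hc1' := hc'.1.1
      rw [mem_product, mem_range, mem_range] at hc1 hc1'
      have hi := hinv c hc1.1
      have hi' := hinv c' hc1'.1
      rw [← hmm, ← hbb] at hi'
      by_cases heq : (α c).re * (α c').im = (α c').re * (α c).im
      · have hl := hlev3 c hc.1.1
        rw [hc.1.2] at hl
        obtain ⟨p1, p2⟩ := D.same' hi hi' heq hl
        exact ⟨p1, by omega⟩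
      · have hfin := D.collision (A := J) (B := T) hw hew hi hi' heq hX.le
          hc1.1.le hc1'.1.le (by omega) (by omega)
        omega
    have hcard := card_le_mul_card_image_of_maps_to hmaps ((2 * t + 1) ^ 2) hfib
    have hp := card_pairs ha ⌊XX a / 2 ^ t⌋₊
    have hf1 : (⌊XX a / 2 ^ t⌋₊ : ℝ) ≤ XX a / 2 ^ t := Nat.floor_le (by positivity)
    have hf2 : (⌊XX a / 2 ^ t⌋₊ : ℝ) * (1 + Real.log ⌊XX a / 2 ^ t⌋₊) ≤
        XX a / 2 ^ t * (1 + Real.log (XX a)) := by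
      rcases Nat.eq_zero_or_pos ⌊XX a / 2 ^ t⌋₊ with h0 | h0
      · rw [h0]
        have := Real.log_nonneg hX1
        simp only [Nat.cast_zero, zero_mul]
        positivity
      · have h1 : (1 : ℝ) ≤ ⌊XX a / 2 ^ t⌋₊ := by exact_mod_cast h0
        have h2 : XX a / 2 ^ t ≤ XX a := div_le_self hXp.le (one_le_pow₀ (by norm_num))
        have h3 : Real.log ⌊XX a / 2 ^ t⌋₊ ≤ Real.log (XX a) :=
          Real.log_le_log (by linarith) (hf1.trans h2)
        have h4 := Real.log_nonneg h1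
        apply mul_le_mul hf1 (by linarith) (by linarith) (by positivity)
    calc ((S.card : ℕ) : ℝ) ≤ (((2 * t + 1) ^ 2 * (pairs a ⌊XX a / 2 ^ t⌋₊).card : ℕ) : ℝ) := by
          exact_mod_cast hcard
      _ = (2 * (t : ℝ) + 1) ^ 2 * ((pairs a ⌊XX a / 2 ^ t⌋₊).card : ℝ) := by push_cast; ring
      _ ≤ (2 * (t : ℝ) + 1) ^ 2 * (XX a / 2 ^ t * (1 + Real.log (XX a))) := by
          apply mul_le_mul_of_nonneg_left (hp.trans hf2) (by positivity)
      _ = _ := by ring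
  have htot : ((J * T : ℕ) : ℝ) = (((range J ×ˢ range T).card : ℕ) : ℝ) := by
    rw [card_product, card_range, card_range]
  rw [htot, hsum]
  push_cast
  have hlogX := Real.log_nonneg hX1
  calc ∑ t ∈ range s, ((((range J ×ˢ range T).filter fun c => lev c = t).card : ℕ) : ℝ)
      ≤ ∑ t ∈ range s, (2 * (t : ℝ) + 1) ^ 2 / 2 ^ t * (XX a * (1 + Real.log (XX a))) :=
        sum_le_sum hpart
    _ = (∑ t ∈ range s, (2 * (t : ℝ) + 1) ^ 2 / 2 ^ t) * (XX a * (1 + Real.log (XX a))) := by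
        rw [sum_mul]
    _ ≤ 34 * (XX a * (1 + Real.log (XX a))) := by
        apply mul_le_mul_of_nonneg_right _ (by positivity)
        rw [sum_odd_sq]
        have : (0 : ℝ) ≤ (8 * (s : ℝ) ^ 2 + 24 * s + 34) / 2 ^ s := by positivity
        linarith

end

end Pool.Agent.H42.SF
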