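import Pool.Agent.H42.SF.Class

set_option autoImplicit false

/-! The bounds for the squarefree part of `4^n + 1`, and the final forms of the structure theorem. -/

namespace Pool.Agent.H42.SF

open Finset

theorem main_squarefree (n : ℕ) (hn : 2 ≤ n) (a y : ℕ) (hsq : Squarefree a)
    (h : 4 ^ n + 1 = a * y ^ 2) : n ^ 4 ≤ 2 ^ 25 * (Nat.log 2 n + 1) ^ 2 * a := by
  set ℓ := Nat.log 2 n + 1 with hℓ
  have hnℓ : n < 2 ^ ℓ := Nat.lt_pow_succ_log_self (by norm_num) n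
  have hnℓ' : 2 ^ (ℓ - 1) ≤ n := by
    rw [hℓ, Nat.add_sub_cancel]; exact Nat.pow_log_le_self 2 (by omega)
  have hℓ2 : 2 ≤ ℓ := by
    have : 1 ≤ Nat.log 2 n := Nat.log_pos (by norm_num) hn
    omega
  have ha0 : 0 < a := Nat.pos_of_ne_zero (by rintro rfl; simp at h)
  have hy0 : 0 < y := Nat.pos_of_ne_zero (by rintro rfl; simp at h)
  set s := 2 * ℓ + 1 with hs
  by_cases hsmall : n < 16 * ℓ
  · have hpow : ∀ k : ℕ, 16 * (k + 8) ≤ 2 ^ (k + 7) := by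
      intro k
      induction k with
      | zero => norm_num
      | succ k ih => rw [show k + 1 + 7 = (k + 7) + 1 by ring, pow_succ]; omega
    have hℓ8 : ℓ < 8 := by
      by_contra hc
      push Not at hc
      have := hpow (ℓ - 8)
      rw [show ℓ - 8 + 7 = ℓ - 1 by omega, show ℓ - 8 + 8 = ℓ by omega] at this
      omega
    calc n ^ 4 ≤ (16 * ℓ) ^ 4 := Nat.pow_le_pow_left hsmall.le 4
      _ = 65536 * ℓ ^ 2 * ℓ ^ 2 := by ring
      _ ≤ 65536 * ℓ ^ 2 * 8 ^ 2 := Nat.mul_le_mul_left _ (Nat.pow_le_pow_left hℓ8.le 2)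
      _ ≤ 2 ^ 25 * ℓ ^ 2 := by nlinarith [Nat.zero_le (ℓ ^ 2)]
      _ ≤ 2 ^ 25 * ℓ ^ 2 * a := Nat.le_mul_of_pos_right _ ha0
  push Not at hsmall
  by_contra hlt
  push Not at hlt
  have han : a < n ^ 4 := by
    refine lt_of_le_of_lt ?_ hlt
    exact Nat.le_mul_of_pos_left _ (by positivity)
  have hZ : (4 : ℤ) ^ n + 1 = (a : ℤ) * (y : ℤ) ^ 2 := by exact_mod_cast h
  obtain ⟨ρ, D⟩ := exists_dat hn hZ (by exact_mod_cast hy0)
  obtain ⟨e, w, hw, hew⟩ := Nat.exists_eq_two_pow_mul_odd (n := 4 * (n - 1)) (by omega)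
  have he : e ≤ ℓ + 1 := by
    have h1 : 2 ^ e ≤ 4 * (n - 1) := by
      rw [hew]; exact Nat.le_mul_of_pos_right _ hw.pos
    have h2 : 4 * (n - 1) < 2 ^ (ℓ + 2) := by rw [pow_add]; omega
    have := (Nat.pow_lt_pow_iff_right (by norm_num : 1 < 2)).1 (lt_of_le_of_lt h1 h2)
    omega
  have hasq : Squarefree (a : ℤ) := Int.squarefree_natCast.2 hsq
  -- the real number `X`
  set R := √(a : ℝ) with hR
  have hRsq : R * R = a := Real.mul_self_sqrt (by positivity)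
  have hR0 : 0 ≤ R := Real.sqrt_nonneg _
  have ha1 : (1 : ℝ) ≤ a := by exact_mod_cast ha0
  have hR1 : 1 ≤ R := by nlinarith
  have hRn : R < (n : ℝ) ^ 2 := by
    have h1 : (a : ℝ) < n ^ 4 := by exact_mod_cast han
    have h2 : (0 : ℝ) ≤ (n : ℝ) ^ 2 := by positivity
    nlinarith
  have hXdef : XX (a : ℤ) = 2 * R + 1 := by rw [XX, hR]; push_cast; rfl
  have hXs : XX (a : ℤ) < 2 ^ s := by
    rw [hXdef]
    have h1 : (n : ℝ) + 1 ≤ 2 ^ ℓ := by exact_mod_cast hnℓ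
    have h2 : (2 : ℝ) ^ s = 2 * (2 ^ ℓ * 2 ^ ℓ) := by rw [hs, pow_succ, two_mul, pow_add]; ring
    have h3 : (2 : ℝ) ≤ n := by exact_mod_cast hn
    rw [h2]
    nlinarith
  set J := n / 4 with hJ
  have hJ1 : 4 * J ≤ n := Nat.mul_div_le _ _
  have hJ2 : n ≤ 5 * J := by omega
  have hcond : 2 * s + J + J + 2 < n - e := by omega
  have hcount := D.count2 hw hew hasq hXs hcond
  have hX3 : XX (a : ℤ) ≤ 3 * R := by rw [hXdef]; linarith
  have hX1 : 1 ≤ XX (a : ℤ) := by rw [hXdef]; linarith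
  have hlog : Real.log (XX (a : ℤ)) ≤ s * Real.log 2 := by
    rw [← Real.log_pow]
    exact Real.log_le_log (by linarith) hXs.le
  have hℓR : (2 : ℝ) ≤ ℓ := by exact_mod_cast hℓ2
  have hlog2 : 1 + Real.log (XX (a : ℤ)) ≤ 2.24 * ℓ := by
    have h5 := Real.log_two_lt_d9
    have h6 : (s : ℝ) = 2 * ℓ + 1 := by rw [hs]; push_cast; ring
    rw [h6] at hlog
    nlinarith
  have hlog0 : 0 ≤ Real.log (XX (a : ℤ)) := Real.log_nonneg hX1
  have hrhs : XX (a : ℤ) * (1 + Real.log (XX (a : ℤ))) ≤ 3 * R * (2.24 * ℓ) :=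
    mul_le_mul hX3 hlog2 (by linarith) (by positivity)
  have hJJ : (J : ℝ) * J ≤ 34 * (3 * R * (2.24 * ℓ)) := by
    push_cast at hcount
    linarith
  have hJn : (n : ℝ) ≤ 5 * J := by exact_mod_cast hJ2
  have hn0 : (0 : ℝ) ≤ n := by positivity
  have hn2 : (n : ℝ) * n ≤ 5712 * ℓ * R := by
    calc (n : ℝ) * n ≤ (5 * J) * (5 * J) := mul_le_mul hJn hJn hn0 (by positivity)
      _ = 25 * (J * J) := by ring
      _ ≤ 25 * (34 * (3 * R * (2.24 * ℓ))) := by gcongr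
      _ = 5712 * ℓ * R := by ring
  have hn4 : (n : ℝ) ^ 4 ≤ 2 ^ 25 * (ℓ : ℝ) ^ 2 * a := by
    calc (n : ℝ) ^ 4 = (n * n) * (n * n) := by ring
      _ ≤ (5712 * ℓ * R) * (5712 * ℓ * R) :=
          mul_le_mul hn2 hn2 (by positivity) (by positivity)
      _ = 32626944 * (ℓ : ℝ) ^ 2 * (R * R) := by ring
      _ ≤ 2 ^ 25 * (ℓ : ℝ) ^ 2 * (R * R) := by gcongr; norm_num
      _ = 2 ^ 25 * (ℓ : ℝ) ^ 2 * a := by rw [hRsq]
  have hn4' : n ^ 4 ≤ 2 ^ 25 * ℓ ^ 2 * a := by exact_mod_cast hn4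
  omega

theorem main (n : ℕ) (hn : 1 ≤ n) (a y : ℕ) (h : 4 ^ n + 1 = a * y ^ 2) :
    n ^ 4 ≤ 2 ^ 25 * (Nat.log 2 n + 1) ^ 2 * a := by
  have ha0 : 0 < a := Nat.pos_of_ne_zero (by rintro rfl; simp at h)
  rcases Nat.lt_or_ge n 2 with h1 | h2
  · have : n = 1 := by omega
    subst this
    have : 1 ≤ a := ha0
    simp only [one_pow, Nat.log_one_right, zero_add, mul_one]
    omega
  · obtain ⟨a0, b, hb, hsq⟩ := Nat.sq_mul_squarefree a
    have h3 : 4 ^ n + 1 = a0 * (b * y) ^ 2 := by rw [h, ← hb]; ring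
    have hb0 : 0 < b := Nat.pos_of_ne_zero (by rintro rfl; simp at hb; omega)
    have h4 : a0 ≤ a := by rw [← hb]; exact Nat.le_mul_of_pos_left _ (by positivity)
    exact (main_squarefree n h2 a0 (b * y) hsq h3).trans (Nat.mul_le_mul_left _ h4)

theorem fermat_eq (k : ℕ) : Nat.fermatNumber (k + 1) = 4 ^ (2 ^ k) + 1 := by
  rw [Nat.fermatNumber, show (4 : ℕ) = 2 ^ 2 by norm_num, ← pow_mul]
  congr 2
  ring

theorem fermat (m : ℕ) (hm : 1 ≤ m) (a y : ℕ) (h : Nat.fermatNumber m = a * y ^ 2) :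
    16 ^ m ≤ 2 ^ 29 * m ^ 2 * a := by
  obtain ⟨k, rfl⟩ : ∃ k, m = k + 1 := ⟨m - 1, by omega⟩
  rw [fermat_eq] at h
  have h2 := main (2 ^ k) Nat.one_le_two_pow a y h
  rw [Nat.log_pow (by norm_num)] at h2
  calc 16 ^ (k + 1) = 16 * (2 ^ k) ^ 4 := by
        rw [pow_succ, ← pow_mul, mul_comm k 4, pow_mul]; norm_num; ring
    _ ≤ 16 * (2 ^ 25 * (k + 1) ^ 2 * a) := Nat.mul_le_mul_left _ h2
    _ = 2 ^ 29 * (k + 1) ^ 2 * a := by ring

/-- The numerical conditions of the structure theorem. -/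
def Cond (n : ℕ) : Prop := ∃ e w G : ℕ, Odd w ∧ 4 * (n - 1) = 2 ^ e * w ∧ 3 * n + 3 ≤ 4 * G ∧
  G + 2 < n - e

theorem cond_of_le {n : ℕ} (hn : 64 ≤ n) : Cond n := by
  obtain ⟨e, w, hw, hew⟩ := Nat.exists_eq_two_pow_mul_odd (n := 4 * (n - 1)) (by omega)
  refine ⟨e, w, (3 * n + 6) / 4, hw, hew, by omega, ?_⟩
  have h1 : 2 ^ e ≤ 4 * (n - 1) := by
    rw [hew]; exact Nat.le_mul_of_pos_right _ hw.pos
  -- `4 (e + 4) ≤ n` unless `e ≤ 8`
  have hexp : ∀ k : ℕ, 16 * (k + 8) + 64 ≤ 2 ^ (k + 8) := by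
    intro k
    induction k with
    | zero => norm_num
    | succ k ih => rw [show k + 1 + 8 = (k + 8) + 1 by ring, pow_succ]; omega
  rcases Nat.lt_or_ge e 9 with h9 | h9
  · have : e ≤ 8 := by omega
    rcases Nat.lt_or_ge e 8 with h8 | h8
    · -- `e ≤ 7`
      by_cases hn65 : 52 ≤ n
      · omega
      · omega
    · have he8 : e = 8 := by omega
      subst he8
      have : 256 ≤ 4 * (n - 1) := by simpa using h1
      omega
  · have h2 := hexp (e - 8)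
    rw [show e - 8 + 8 = e by omega] at h2
    omega

theorem cond_fermat {k : ℕ} (hk : 5 ≤ k) : Cond (2 ^ k) := by
  have h32 : 32 ≤ 2 ^ k := by
    calc 32 = 2 ^ 5 := by norm_num
      _ ≤ 2 ^ k := Nat.pow_le_pow_right (by norm_num) hk
  refine ⟨2, 2 ^ k - 1, (3 * 2 ^ k + 6) / 4, ?_, by norm_num, by omega, by omega⟩
  obtain ⟨k', rfl⟩ : ∃ k', k = k' + 1 := ⟨k - 1, by omega⟩
  rw [pow_succ]
  refine ⟨2 ^ k' - 1, ?_⟩
  have : 1 ≤ 2 ^ k' := Nat.one_le_two_pow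
  omega

/-- The real number given by an element of `ℤ[√a]`. -/
noncomputable def toReal {a : ℤ} (δ : ℤ√a) : ℝ := δ.re + δ.im * √(a : ℝ)

section

variable {n : ℕ} {a y : ℤ} {ρ : ℤ_[2]} (D : Dat n a y ρ)

include D

theorem Dat.toReal_mul (α β : ℤ√a) : toReal (α * β) = toReal α * toReal β := by
  simp only [toReal, Zsqrtd.re_mul, Zsqrtd.im_mul]
  push_cast
  linear_combination (-(α.im : ℝ) * β.im) * D.sqrt_sq

theorem Dat.toReal_pow (α : ℤ√a) (k : ℕ) : toReal (α ^ k) = toReal α ^ k := by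
  induction k with
  | zero => simp [toReal]
  | succ k ih => rw [pow_succ, pow_succ, D.toReal_mul, ih]

/-- The structure theorem in the real numbers. -/
theorem Dat.real_structure (hc : Cond n) {u v : ℤ} {S : ℕ} (h : |u ^ 2 - a * v ^ 2| = 2 ^ S) :
    ∃ r i l : ℤ, |(u : ℝ) + v * √(a : ℝ)| =
      2 ^ r * (2 ^ n + y * √(a : ℝ)) ^ i * ((1 + 2 ^ n + y * √(a : ℝ)) / 2) ^ l := by
  obtain ⟨e, w, G, hw, hew, hG, hGn⟩ := hc
  have hδ : IsTwo (⟨u, v⟩ : ℤ√a) := by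
    refine ⟨S, ?_⟩
    rw [Zsqrtd.norm_def]
    have e1 : u * u - a * v * v = u ^ 2 - a * v ^ 2 := by ring
    simp only
    rw [e1]
    have : ((u ^ 2 - a * v ^ 2).natAbs : ℤ) = 2 ^ S := by rw [Int.natCast_natAbs]; exact h
    exact_mod_cast this
  obtain ⟨N, M, g, g', c, r, hg, hg', hprod, hcr⟩ := D.structure hw hew hG hGn hδ
  have hy : (0 : ℝ) < y := by exact_mod_cast D.hy
  have hs : (0 : ℝ) ≤ √(a : ℝ) := Real.sqrt_nonneg _
  set E := (2 : ℝ) ^ n + y * √(a : ℝ) with hE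
  set Γ := (1 + (2 : ℝ) ^ n + y * √(a : ℝ)) / 2 with hΓ
  have hE0 : 0 < E := by positivity
  have hΓ0 : 0 < Γ := by positivity
  have hsq : (y * √(a : ℝ)) * (y * √(a : ℝ)) = 4 ^ n + 1 := by
    have h5 : ((4 : ℝ) ^ n + 1) = a * y ^ 2 := by exact_mod_cast congrArg (Int.cast : ℤ → ℝ) D.eq
    rw [h5]
    linear_combination ((y : ℝ) ^ 2) * D.sqrt_sq
  have h4n : (4 : ℝ) ^ n = 2 ^ n * 2 ^ n := by rw [← mul_pow]; norm_num
  -- the absolute values of the factors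
  have hg1 : ∃ l r : ℤ, |toReal g| = 2 ^ r * Γ ^ l := by
    have e1 : toReal (gam n a y) = 2 * Γ := by
      rw [toReal, gam, hΓ]; push_cast; ring
    have e2 : toReal (star (gam n a y)) * (2 * Γ) = 2 ^ (n + 1) := by
      rw [toReal, gam, Zsqrtd.re_star, Zsqrtd.im_star, hΓ]
      push_cast
      rw [pow_succ]
      linear_combination -hsq - h4n
    rcases hg with rfl | rfl
    · exact ⟨1, 1, by rw [e1, abs_of_pos (by positivity), zpow_one, zpow_one]⟩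
    · refine ⟨-1, n, ?_⟩
      have e3 : toReal (star (gam n a y)) = 2 ^ n * Γ⁻¹ := by
        rw [pow_succ] at e2
        field_simp
        linarith
      rw [e3, abs_of_pos (by positivity), zpow_neg_one, zpow_natCast]
  have hg2 : ∃ i : ℤ, |toReal g'| = E ^ i := by
    have e1 : toReal (eps n a y) = E := by
      rw [toReal, eps, hE]; push_cast; ring
    have e2 : toReal (star (eps n a y)) * E = -1 := by
      rw [toReal, eps, Zsqrtd.re_star, Zsqrtd.im_star, hE]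
      push_cast
      linear_combination -hsq - h4n
    rcases hg' with rfl | rfl
    · exact ⟨1, by rw [e1, abs_of_pos hE0, zpow_one]⟩
    · refine ⟨-1, ?_⟩
      have e3 : toReal (star (eps n a y)) = -E⁻¹ := by
        field_simp; linarith
      rw [e3, abs_neg, abs_of_pos (by positivity), zpow_neg_one]
  obtain ⟨l1, r1, hgl⟩ := hg1
  obtain ⟨i1, hgi⟩ := hg2
  have hcR : |toReal ((c : ℤ) : ℤ√a)| = 2 ^ r := by
    rw [toReal, Zsqrtd.re_intCast, Zsqrtd.im_intCast]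
    simp only [Int.cast_zero, zero_mul, add_zero]
    rw [← Int.cast_abs, Int.abs_eq_natAbs, hcr]
    push_cast; rfl
  rw [← hprod, D.toReal_mul, D.toReal_mul, D.toReal_pow, D.toReal_pow, abs_mul, abs_mul, abs_pow,
    abs_pow, hgl, hgi] at hcR
  have hδR : toReal (⟨u, v⟩ : ℤ√a) = (u : ℝ) + v * √(a : ℝ) := rfl
  rw [hδR] at hcR
  refine ⟨r - r1 * N, -(i1 * M), -(l1 * N), ?_⟩
  rw [mul_pow, ← zpow_natCast (2 ^ r1), ← zpow_natCast (Γ ^ l1), ← zpow_natCast (E ^ i1),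
    ← zpow_mul, ← zpow_mul, ← zpow_mul] at hcR
  rw [zpow_sub₀ (by norm_num), zpow_neg, zpow_neg, zpow_natCast, ← hcR]
  have p1 : (2 : ℝ) ^ (r1 * N) ≠ 0 := (by positivity : (0 : ℝ) < 2 ^ (r1 * (N : ℤ))).ne'
  have p2 : E ^ (i1 * M) ≠ 0 := (by positivity : (0 : ℝ) < E ^ (i1 * (M : ℤ))).ne'
  have p3 : Γ ^ (l1 * N) ≠ 0 := (by positivity : (0 : ℝ) < Γ ^ (l1 * (N : ℤ))).ne'
  field_simp

end

/-- The class number. -/
theorem class_number {n : ℕ} (hn : 2 ≤ n) (hc : Cond n) {K : Type*} [Field K] [NumberField K]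
    (hK : Module.finrank ℚ K = 2) {θ : K} (hθ : θ ^ 2 = 4 ^ n + 1) :
    (n - 1) ∣ NumberField.classNumber K := by
  obtain ⟨a, b, hb, hsq⟩ := Nat.sq_mul_squarefree (4 ^ n + 1)
  have hb0 : 0 < b := Nat.pos_of_ne_zero (by rintro rfl; simp at hb)
  have hZ : (4 : ℤ) ^ n + 1 = (a : ℤ) * (b : ℤ) ^ 2 := by
    have : (4 : ℕ) ^ n + 1 = a * b ^ 2 := by rw [mul_comm]; exact hb.symm
    exact_mod_cast this
  obtain ⟨ρ, D⟩ := exists_dat hn hZ (by exact_mod_cast hb0)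
  obtain ⟨e, w, G, hw, hew, hG, hGn⟩ := hc
  have hbK : (b : K) ≠ 0 := by exact_mod_cast hb0.ne'
  refine order_class hK D (Int.squarefree_natCast.2 hsq) (θ := θ / b) ?_ hw hew hG hGn
  rw [div_pow, hθ, div_eq_iff (pow_ne_zero 2 hbK)]
  have := congrArg (Int.cast : ℤ → K) hZ
  push_cast at this ⊢
  exact this

end Pool.Agent.H42.SF
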