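import Pool.Agent.H42.SF.Units

set_option autoImplicit false

/-! The key lemma: an element of `ℤ[√a]` whose norm is a power of two and which is not rational is
large. -/

namespace Pool.Agent.H42.SF

open Finset Pell

section

variable {n : ℕ} {a y : ℤ} {ρ : ℤ_[2]} (D : Dat n a y ρ)

include D

theorem Dat.y_rho : ∃ v c : ℤ_[2], IsUnit v ∧ IsUnit c ∧ 1 + y * ρ = 2 * v ∧
    1 - y * ρ = 2 ^ (2 * n - 1) * c ∧ (2 : ℤ_[2]) ^ n ∣ c ^ 2 - 1 := by
  obtain ⟨c0, hc0⟩ := D.cl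
  have hz : (ρ * y) ^ 2 = 4 ^ n + 1 := by
    have hcast : (4 : ℤ_[2]) ^ n + 1 = a * y ^ 2 := by
      exact_mod_cast congrArg (Int.cast : ℤ → ℤ_[2]) D.eq
    rw [hcast, ← D.sq]; ring
  have hn := D.hn
  obtain ⟨m, hm⟩ : ∃ m, 2 * n - 1 = m + 2 := ⟨2 * n - 3, by omega⟩
  have h4 : (4 : ℤ_[2]) ^ n = 2 * 2 ^ (m + 2) := by
    have : (4 : ℤ_[2]) ^ n = 2 ^ (2 * n) := by rw [pow_mul]; norm_num
    rw [this, show 2 * n = m + 2 + 1 by omega, pow_succ]; ring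
  rw [hm] at hc0
  have hρ : ρ * y = 1 + 2 ^ (m + 2) * c0 := by linear_combination hc0
  have h5 : 2 * 2 ^ (m + 2) * (c0 + 2 ^ (m + 1) * c0 ^ 2) = 2 * 2 ^ (m + 2) * (1 : ℤ_[2]) := by
    have := hz
    rw [hρ, h4] at this
    linear_combination this
  have h6 : c0 + 2 ^ (m + 1) * c0 ^ 2 = 1 :=
    mul_left_cancel₀ (mul_ne_zero prime_two.ne_zero (pow_ne_zero _ prime_two.ne_zero)) h5
  have hc0u : IsUnit c0 := IsUnit.of_mul_eq_one (1 + 2 ^ (m + 1) * c0) (by linear_combination h6)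
  refine ⟨1 + 2 ^ (m + 1) * c0, -c0, ?_, hc0u.neg, ?_, ?_, ?_⟩
  · exact IsUnit.of_mul_eq_one c0 (by linear_combination h6)
  · linear_combination hρ
  · rw [hm]; linear_combination -hρ
  · have : (2 : ℤ_[2]) ^ (m + 1) ∣ (-c0) ^ 2 - 1 := by
      refine ⟨-(c0 ^ 2) * (c0 + 1), ?_⟩
      linear_combination (c0 + 1) * h6
    exact (pow_dvd_pow 2 (by omega)).trans this

/-- Divisibility in `ℤ[√a]` from the two places. -/
theorem Dat.dvd_of (W : ℤ√a) (M : ℕ) (hP : (2 : ℤ_[2]) ^ M ∣ D.P W) (hQ : (2 : ℤ_[2]) ^ M ∣ D.Q W) :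
    ((2 : ℤ) ^ M ∣ 2 * W.re) ∧ ((2 : ℤ) ^ M ∣ 2 * W.im) := by
  rw [D.P_apply] at hP
  rw [D.Q_apply] at hQ
  constructor
  · rw [← int_dvd]
    have := dvd_add hP hQ
    push_cast
    convert this using 1; ring
  · rw [← int_dvd]
    have := dvd_sub hP hQ
    push_cast
    have h2 : (2 : ℤ_[2]) ^ M ∣ ρ * (2 * W.im) := by convert this using 1; ring
    exact (dvd_unit_mul D.rho_unit).1 h2

omit D in
theorem norm_four {r s : ℤ} (ha : (8 : ℤ) ∣ a - 1) (h : (r * r - a * s * s).natAbs = 4) :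
    ∃ r' s', r = 2 * r' ∧ s = 2 * s' ∧ (r' * r' - a * s' * s').natAbs = 1 := by
  obtain ⟨c, hc⟩ := ha
  have ha' : a = 1 + 8 * c := by linarith
  have h4 : r * r - a * s * s = 4 ∨ r * r - a * s * s = -4 := by omega
  rcases Int.even_or_odd r with ⟨r', hr⟩ | hr
  · rcases Int.even_or_odd s with ⟨s', hs⟩ | hs
    · refine ⟨r', s', by omega, by omega, ?_⟩
      have e : r * r - a * s * s = 4 * (r' * r' - a * s' * s') := by rw [hr, hs]; ring
      rw [e] at h4; omega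
    · exfalso
      have h1 : (8 : ℤ) ∣ s ^ 2 - 1 := Int.eight_dvd_sq_sub_one_of_odd hs
      obtain ⟨d, hd⟩ := h1
      have e : r * r - a * s * s = 4 * (r' * r') - (1 + 8 * c) * (1 + 8 * d) := by
        rw [ha', hr]; linear_combination (-(1 + 8 * c)) * hd
      have e2 : r * r - a * s * s = 4 * (r' * r') - 8 * (c + d + 8 * (c * d)) - 1 := by
        rw [e]; ring
      omega
  · rcases Int.even_or_odd s with ⟨s', hs⟩ | hs
    · exfalso
      have h1 : (8 : ℤ) ∣ r ^ 2 - 1 := Int.eight_dvd_sq_sub_one_of_odd hr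
      obtain ⟨d, hd⟩ := h1
      have e2 : r * r - a * s * s = 8 * d + 1 - 4 * (a * (s' * s')) := by
        rw [hs]; linear_combination hd
      omega
    · exfalso
      have h1 : (8 : ℤ) ∣ s ^ 2 - 1 := Int.eight_dvd_sq_sub_one_of_odd hs
      have h2 : (8 : ℤ) ∣ r ^ 2 - 1 := Int.eight_dvd_sq_sub_one_of_odd hr
      obtain ⟨d, hd⟩ := h1
      obtain ⟨e, he⟩ := h2
      have e2 : r * r - a * s * s = 8 * (e - c - d - 8 * (c * d)) := by
        rw [ha']; linear_combination he - (1 + 8 * c) * hd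
      omega

/-- The 2-adic part of the key lemma. -/
theorem Dat.key_adic {e w : ℕ} (hw : Odd w) (hew : 4 * (n - 1) = 2 ^ e * w)
    (δ : ℤ√a) (i j : ℕ) (hij : j ≤ i) (u v : ℤ_[2]) (hu : IsUnit u) (hv : IsUnit v)
    (hQ : D.Q δ = 2 ^ i * u) (hP : D.P δ = 2 ^ j * v) (hN : ∃ S, δ.norm.natAbs = 2 ^ S) :
    (2 : ℤ_[2]) ^ (n - e) ∣ v - 1 ∨ (2 : ℤ_[2]) ^ (n - e) ∣ v + 1 := by
  have hn := D.hn
  obtain ⟨v0, c, hv0, hc, h1, h2, h3⟩ := D.y_rho
  obtain ⟨S, hS⟩ := hN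
  -- the norm
  have hSij : S = i + j := by
    have e1 := D.P_mul_Q δ
    rw [hP, hQ] at e1
    have e2 : (δ.norm : ℤ) = 2 ^ S ∨ (δ.norm : ℤ) = -2 ^ S := by
      have := Int.natAbs_eq δ.norm
      rw [hS] at this; push_cast at this; exact this
    rcases e2 with e2 | e2
    · rw [e2] at e1; push_cast at e1
      exact (pow_eq_pow (k := i + j) (l := S) (hu.mul hv) isUnit_one (by
        rw [mul_one, ← e1, pow_add]; ring)).symm
    · rw [e2] at e1; push_cast at e1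
      exact (pow_eq_pow (k := i + j) (l := S) (hu.mul hv) (isUnit_one.neg) (by
        rw [mul_neg, mul_one, ← e1, pow_add]; ring)).symm
  subst hSij
  obtain ⟨k, rfl⟩ := Nat.exists_eq_add_of_le hij
  set E := 2 * n - 2 with hE
  set M := E * j + (2 * n - 1) * k with hM
  let W : ℤ√a := δ ^ E * ⟨1, -y⟩ ^ k
  have hPW : D.P W = 2 ^ M * (v ^ E * c ^ k) := by
    have : D.P (⟨1, -y⟩ : ℤ√a) = 2 ^ (2 * n - 1) * c := by
      rw [D.P_apply, ← h2]; push_cast; ring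
    rw [map_mul, map_pow, map_pow, this, hP, mul_pow, mul_pow, ← pow_mul, ← pow_mul, hM, pow_add,
      mul_comm j E]
    ring
  have hQW : D.Q W = 2 ^ M * (u ^ E * v0 ^ k) := by
    have : D.Q (⟨1, -y⟩ : ℤ√a) = 2 * v0 := by
      rw [D.Q_apply, ← h1]; push_cast; ring
    rw [map_mul, map_pow, map_pow, this, hQ, mul_pow, mul_pow, ← pow_mul]
    have : M = (j + k) * E + k := by
      rw [hM, show 2 * n - 1 = E + 1 by omega]; ring
    rw [this, pow_add]; ring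
  obtain ⟨d1, d2⟩ := D.dvd_of W M ⟨_, hPW⟩ ⟨_, hQW⟩
  obtain ⟨r1, hr1⟩ := d1
  obtain ⟨s1, hs1⟩ := d2
  have hnW : W.norm.natAbs = 2 ^ (2 * M) := by
    have e1 : (⟨1, -y⟩ : ℤ√a).norm = -4 ^ n := by
      rw [Zsqrtd.norm_def]
      have := D.eq
      simp only
      linear_combination this
    have e2 : W.norm = δ.norm ^ E * (-4 ^ n) ^ k := by
      change (δ ^ E * ⟨1, -y⟩ ^ k).norm = _
      rw [Zsqrtd.norm_mul, ← e1]
      have hp : ∀ (x : ℤ√a) (m : ℕ), (x ^ m).norm = x.norm ^ m := fun x m =>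
        map_pow (Zsqrtd.normMonoidHom (d := a)) x m
      rw [hp, hp]
    rw [e2, Int.natAbs_mul, Int.natAbs_pow, Int.natAbs_pow, hS, Int.natAbs_neg, Int.natAbs_pow]
    rw [show Int.natAbs 4 = 2 ^ 2 by rfl, ← pow_mul, ← pow_mul, ← pow_mul, ← pow_add]
    congr 1
    have h2nk : 2 * (n * k) = (E + 2) * k := by rw [← mul_assoc, show 2 * n = E + 2 by omega]
    rw [hM, show 2 * n - 1 = E + 1 by omega, h2nk]
    ring
  have hrs : (r1 * r1 - a * s1 * s1).natAbs = 4 := by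
    have e1 : ((2 : ℤ) ^ (2 * M)) * (r1 * r1 - a * s1 * s1) = 4 * W.norm := by
      rw [Zsqrtd.norm_def, show 2 * M = M + M by ring, pow_add]
      linear_combination (-(2 * W.re) - 2 ^ M * r1) * hr1 + a * (2 * W.im + 2 ^ M * s1) * hs1
    have e2 := congrArg Int.natAbs e1
    rw [Int.natAbs_mul, Int.natAbs_mul, hnW, Int.natAbs_pow] at e2
    have e3 : (2 : ℕ) ^ (2 * M) * (r1 * r1 - a * s1 * s1).natAbs = 2 ^ (2 * M) * 4 := by
      rw [mul_comm _ 4]; exact e2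
    exact Nat.eq_of_mul_eq_mul_left (by positivity) e3
  obtain ⟨r2, s2, hr2, hs2, h1'⟩ := norm_four (a_mod D.hn D.eq) hrs
  have hre : W.re = 2 ^ M * r2 := by
    have : 2 * W.re = 2 * (2 ^ M * r2) := by rw [hr1, hr2]; ring
    linarith
  have him : W.im = 2 ^ M * s2 := by
    have : 2 * W.im = 2 * (2 ^ M * s2) := by rw [hs1, hs2]; ring
    linarith
  -- the unit
  have hPW2 : (r2 : ℤ_[2]) + s2 * ρ = v ^ E * c ^ k := by
    have e1 : D.P W = 2 ^ M * ((r2 : ℤ_[2]) + s2 * ρ) := by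
      rw [D.P_apply, hre, him]; push_cast; ring
    rw [hPW] at e1
    exact (mul_left_cancel₀ (pow_ne_zero _ prime_two.ne_zero) e1).symm
  have hone : (r2 * r2 - a * s2 * s2) ^ 2 = 1 := by
    rcases Int.natAbs_eq (r2 * r2 - a * s2 * s2) with h | h <;> rw [h, h1'] <;> norm_num
  let s : Solution₁ a := Solution₁.mk (r2 ^ 2 + a * s2 ^ 2) (2 * r2 * s2) (by
    linear_combination hone)
  have hs : D.P (s : ℤ√a) = (v ^ E * c ^ k) ^ 2 := by
    rw [D.P_apply, ← hPW2]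
    change (((r2 ^ 2 + a * s2 ^ 2 : ℤ)) : ℤ_[2]) + ((2 * r2 * s2 : ℤ) : ℤ_[2]) * ρ = _
    push_cast
    linear_combination (-(s2 : ℤ_[2]) ^ 2) * D.sq
  have hun := D.units s
  rw [hs] at hun
  -- remove `c`
  have hck : (2 : ℤ_[2]) ^ n ∣ (c ^ k) ^ 2 - 1 := by
    have : c ^ 2 - 1 ∣ (c ^ 2) ^ k - 1 := by simpa using sub_dvd_pow_sub_pow (c ^ 2) 1 k
    have h4 := h3.trans this
    convert h4 using 1; ring
  have hvE : (2 : ℤ_[2]) ^ n ∣ v ^ (2 ^ e * w) - 1 ∨ (2 : ℤ_[2]) ^ n ∣ v ^ (2 ^ e * w) + 1 := by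
    have hexp : v ^ (2 ^ e * w) = (v ^ E) ^ 2 := by
      rw [← hew, ← pow_mul]; congr 1; omega
    rw [hexp]
    rcases hun with hun | hun
    · left
      have := dvd_sub hun (hck.mul_left ((v ^ E) ^ 2))
      convert this using 1; ring
    · right
      have := dvd_sub hun (hck.mul_left ((v ^ E) ^ 2))
      convert this using 1; ring
  exact close_of_pow e ((isUnit_iff v).1 hv) hw hvE

/-- The key lemma. -/
theorem Dat.key {e w : ℕ} (hw : Odd w) (hew : 4 * (n - 1) = 2 ^ e * w)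
    (δ : ℤ√a) (hδ : δ.im ≠ 0) (i j : ℕ) (hij : j ≤ i) (u v : ℤ_[2]) (hu : IsUnit u) (hv : IsUnit v)
    (hQ : D.Q δ = 2 ^ i * u) (hP : D.P δ = 2 ^ j * v) (hN : ∃ S, δ.norm.natAbs = 2 ^ S) :
    (2 : ℝ) ^ (2 * j + (n - e)) ≤
      (|(δ.re : ℝ) + δ.im * √(a : ℝ)| + 2 ^ j) * (|(δ.re : ℝ) - δ.im * √(a : ℝ)| + 2 ^ j) := by
  have hmain : ∃ σ : ℤ, (σ = 1 ∨ σ = -1) ∧ (2 : ℤ_[2]) ^ (n - e) ∣ v - σ := by
    rcases D.key_adic hw hew δ i j hij u v hu hv hQ hP hN with h | h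
    · exact ⟨1, Or.inl rfl, by simpa using h⟩
    · exact ⟨-1, Or.inr rfl, by simpa using h⟩
  obtain ⟨σ, hσ, hd⟩ := hmain
  let δ' : ℤ√a := ⟨δ.re - σ * 2 ^ j, δ.im⟩
  have hP' : (2 : ℤ_[2]) ^ (j + (n - e)) ∣ D.P δ' := by
    have e1 : D.P δ' = 2 ^ j * (v - σ) := by
      have := hP
      rw [D.P_apply] at this ⊢
      change ((δ.re - σ * 2 ^ j : ℤ) : ℤ_[2]) + (δ.im : ℤ_[2]) * ρ = _
      push_cast
      linear_combination this
    rw [e1, pow_add]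
    exact mul_dvd_mul_left _ hd
  have hQ' : (2 : ℤ_[2]) ^ j ∣ D.Q δ' := by
    have e1 : D.Q δ' = 2 ^ i * u - σ * 2 ^ j := by
      have := hQ
      rw [D.Q_apply] at this ⊢
      change ((δ.re - σ * 2 ^ j : ℤ) : ℤ_[2]) - (δ.im : ℤ_[2]) * ρ = _
      push_cast
      linear_combination this
    rw [e1]
    exact dvd_sub ((pow_dvd_pow 2 hij).mul_right u) (dvd_mul_left _ _)
  have hnd : (2 : ℤ) ^ (2 * j + (n - e)) ∣ δ'.norm := by
    rw [← int_dvd, ← D.P_mul_Q]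
    have := mul_dvd_mul hP' hQ'
    convert this using 1
    rw [← pow_add]; congr 1; ring
  have hne : δ'.norm ≠ 0 := by
    intro h0
    rw [Zsqrtd.norm_def] at h0
    have him : δ'.im ≠ 0 := hδ
    apply D.not_sq
    have : a * (δ'.im) ^ 2 = δ'.re ^ 2 := by linear_combination -h0
    obtain ⟨b, hb⟩ : δ'.im ∣ δ'.re := by
      rw [← Int.pow_dvd_pow_iff (n := 2) (by norm_num)]
      exact ⟨a, by linear_combination -this⟩
    refine ⟨b, ?_⟩
    rw [hb] at this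
    have h5 : (δ'.im) ^ 2 * a = (δ'.im) ^ 2 * (b * b) := by linear_combination this
    exact mul_left_cancel₀ (pow_ne_zero 2 him) h5
  have hle : (2 : ℝ) ^ (2 * j + (n - e)) ≤ |(δ'.norm : ℝ)| := by
    have h1 := Int.le_of_dvd (abs_pos.2 hne) ((dvd_abs _ _).2 hnd)
    have h2 : (((2 : ℤ) ^ (2 * j + (n - e)) : ℤ) : ℝ) ≤ ((|δ'.norm| : ℤ) : ℝ) := by exact_mod_cast h1
    simpa using h2
  refine hle.trans ?_
  have ha : (√(a : ℝ)) ^ 2 = a := Real.sq_sqrt (by exact_mod_cast D.apos.le)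
  have hfac : (δ'.norm : ℝ) = ((δ.re : ℝ) + δ.im * √(a : ℝ) - σ * 2 ^ j) *
      ((δ.re : ℝ) - δ.im * √(a : ℝ) - σ * 2 ^ j) := by
    rw [Zsqrtd.norm_def]
    change (((δ.re - σ * 2 ^ j) * (δ.re - σ * 2 ^ j) - a * δ.im * δ.im : ℤ) : ℝ) = _
    push_cast
    linear_combination ((δ.im : ℝ) ^ 2) * ha
  rw [hfac, abs_mul]
  have hσa : |(σ : ℝ) * 2 ^ j| = 2 ^ j := by
    rw [abs_mul, abs_of_pos (by positivity : (0 : ℝ) < 2 ^ j)]
    rcases hσ with rfl | rfl <;> simp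
  apply mul_le_mul
  · exact (abs_sub _ _).trans (by rw [hσa])
  · exact (abs_sub _ _).trans (by rw [hσa])
  · positivity
  · positivity

end

end Pool.Agent.H42.SF
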