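import Pool.Agent.H42.SF.Count2

set_option autoImplicit false

/-! The structure of the elements of `ℤ[√a]` whose norm is a power of two. -/

namespace Pool.Agent.H42.SF

open Finset Pell

/-- The unit `2^n + y √a`. -/
def eps (n : ℕ) (a y : ℤ) : ℤ√a := ⟨2 ^ n, y⟩

/-- Twice the element `(1 + 2^n + y √a) / 2` of norm `2^(n-1)`. -/
def gam (n : ℕ) (a y : ℤ) : ℤ√a := ⟨1 + 2 ^ n, y⟩

theorem rp_star {a : ℤ} (α : ℤ√a) : rp (star α) = rm α := by
  rw [rp, rm, Zsqrtd.re_star, Zsqrtd.im_star]; push_cast; congr 1; ring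

theorem rm_star {a : ℤ} (α : ℤ√a) : rm (star α) = rp α := by
  rw [rp, rm, Zsqrtd.re_star, Zsqrtd.im_star]; push_cast; congr 1; ring

section

variable {n : ℕ} {a y : ℤ} {ρ : ℤ_[2]} (D : Dat n a y ρ)

include D

theorem Dat.rp_mul (α β : ℤ√a) : rp (α * β) = rp α * rp β := by
  have := D.rp_mul_star α (star β)
  rwa [star_star, rm_star] at this

theorem Dat.rm_mul (α β : ℤ√a) : rm (α * β) = rm α * rm β := by
  have := D.rm_mul_star α (star β)
  rwa [star_star, rp_star] at this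

theorem Dat.rp_pow (α : ℤ√a) (k : ℕ) : rp (α ^ k) = rp α ^ k := by
  induction k with
  | zero => simp [rp]
  | succ k ih => rw [pow_succ, pow_succ, D.rp_mul, ih]

theorem Dat.rm_pow (α : ℤ√a) (k : ℕ) : rm (α ^ k) = rm α ^ k := by
  induction k with
  | zero => simp [rm]
  | succ k ih => rw [pow_succ, pow_succ, D.rm_mul, ih]

theorem Dat.eps_norm : (eps n a y).norm = -1 := by
  rw [Zsqrtd.norm_def]
  have h22 : ((2 : ℤ) ^ n) * 2 ^ n = 4 ^ n := by rw [← mul_pow]; norm_num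
  change (2 : ℤ) ^ n * 2 ^ n - a * y * y = -1
  linear_combination h22 + D.eq

theorem Dat.gam_norm : (gam n a y).norm = 2 ^ (n + 1) := by
  rw [Zsqrtd.norm_def]
  have h22 : ((2 : ℤ) ^ n) * 2 ^ n = 4 ^ n := by rw [← mul_pow]; norm_num
  change (1 + (2 : ℤ) ^ n) * (1 + 2 ^ n) - a * y * y = 2 ^ (n + 1)
  rw [pow_succ]
  linear_combination h22 + D.eq

theorem Dat.eps_units : IsUnit (D.P (eps n a y)) ∧ IsUnit (D.Q (eps n a y)) := by
  have h := D.P_mul_Q (eps n a y)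
  rw [D.eps_norm] at h
  push_cast at h
  constructor
  · exact IsUnit.of_mul_eq_one (-D.Q (eps n a y)) (by linear_combination -h)
  · exact IsUnit.of_mul_eq_one (-D.P (eps n a y)) (by linear_combination -h)

theorem Dat.gam_vals : (∃ u, IsUnit u ∧ D.P (gam n a y) = 2 ^ 1 * u) ∧
    (∃ u, IsUnit u ∧ D.Q (gam n a y) = 2 ^ n * u) := by
  obtain ⟨c0, hc0⟩ := D.cl
  have hn := D.hn
  obtain ⟨m, hm⟩ : ∃ m, n = m + 2 := ⟨n - 2, by omega⟩
  have h1 : (2 : ℤ_[2]) ^ (2 * n - 1) = 2 * (2 ^ (m + 1) * 2 ^ (m + 1)) := by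
    rw [← pow_add, ← pow_succ']; congr 1; omega
  have hρ : y * ρ = 1 + 2 * (2 ^ (m + 1) * 2 ^ (m + 1)) * c0 := by
    rw [h1] at hc0; linear_combination hc0
  have h2n : (2 : ℤ_[2]) ^ n = 2 * 2 ^ (m + 1) := by rw [hm, pow_succ']
  constructor
  · refine ⟨1 + 2 ^ (m + 1) * (1 + 2 ^ (m + 1) * c0), ?_, ?_⟩
    · rw [isUnit_iff]; exact ⟨2 ^ m * (1 + 2 ^ (m + 1) * c0), by rw [pow_succ]; ring⟩
    · rw [D.P_apply]
      change ((1 + 2 ^ n : ℤ) : ℤ_[2]) + (y : ℤ_[2]) * ρ = _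
      push_cast
      rw [hρ, h2n]; ring
  · refine ⟨1 - 2 ^ (m + 1) * c0, ?_, ?_⟩
    · rw [isUnit_iff]; exact ⟨-(2 ^ m * c0), by rw [pow_succ]; ring⟩
    · rw [D.Q_apply]
      change ((1 + 2 ^ n : ℤ) : ℤ_[2]) - (y : ℤ_[2]) * ρ = _
      push_cast
      rw [hρ, h2n]; ring

/-- The valuations at the two places. -/
def Dat.Val (δ : ℤ√a) (i j : ℕ) : Prop :=
  (∃ u, IsUnit u ∧ D.Q δ = 2 ^ i * u) ∧ (∃ u, IsUnit u ∧ D.P δ = 2 ^ j * u)

theorem Dat.Val.mul {α β : ℤ√a} {i j i' j' : ℕ} (h : D.Val α i j) (h' : D.Val β i' j') :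
    D.Val (α * β) (i + i') (j + j') := by
  obtain ⟨⟨u, hu, hu'⟩, ⟨v, hv, hv'⟩⟩ := h
  obtain ⟨⟨x, hx, hx'⟩, ⟨z, hz, hz'⟩⟩ := h'
  refine ⟨⟨u * x, hu.mul hx, ?_⟩, ⟨v * z, hv.mul hz, ?_⟩⟩
  · rw [map_mul, hu', hx', pow_add]; ring
  · rw [map_mul, hv', hz', pow_add]; ring

theorem Dat.Val.pow {α : ℤ√a} {i j : ℕ} (h : D.Val α i j) (k : ℕ) :
    D.Val (α ^ k) (i * k) (j * k) := by
  obtain ⟨⟨u, hu, hu'⟩, ⟨v, hv, hv'⟩⟩ := h
  refine ⟨⟨u ^ k, hu.pow k, ?_⟩, ⟨v ^ k, hv.pow k, ?_⟩⟩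
  · rw [map_pow, hu', mul_pow, ← pow_mul]
  · rw [map_pow, hv', mul_pow, ← pow_mul]

theorem Dat.Val.star {α : ℤ√a} {i j : ℕ} (h : D.Val α i j) : D.Val (star α) j i := by
  obtain ⟨h1, h2⟩ := h
  refine ⟨?_, ?_⟩
  · rw [D.Q_star]; exact h2
  · rw [D.P_star]; exact h1

theorem Dat.val_gam : D.Val (gam n a y) n 1 := ⟨D.gam_vals.2, D.gam_vals.1⟩

theorem Dat.val_eps : D.Val (eps n a y) 0 0 :=
  ⟨⟨_, D.eps_units.2, by simp⟩, ⟨_, D.eps_units.1, by simp⟩⟩

theorem Dat.Val.unique {α : ℤ√a} {i j i' j' : ℕ} (h : D.Val α i j) (h' : D.Val α i' j') :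
    i = i' ∧ j = j' := by
  obtain ⟨⟨u, hu, hu'⟩, ⟨v, hv, hv'⟩⟩ := h
  obtain ⟨⟨x, hx, hx'⟩, ⟨z, hz, hz'⟩⟩ := h'
  exact ⟨pow_eq_pow hu hx (by rw [← hu', ← hx']), pow_eq_pow hv hz (by rw [← hv', ← hz'])⟩

theorem Dat.exists_val {δ : ℤ√a} (h : δ.norm ≠ 0) : ∃ i j, D.Val δ i j := by
  have hPQ := D.P_mul_Q δ
  have hne : (δ.norm : ℤ_[2]) ≠ 0 := by exact_mod_cast h
  have hP0 : D.P δ ≠ 0 := by intro h0; rw [h0, zero_mul] at hPQ; exact hne hPQ.symm
  have hQ0 : D.Q δ ≠ 0 := by intro h0; rw [h0, mul_zero] at hPQ; exact hne hPQ.symm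
  obtain ⟨i, u, hu, hQ⟩ := exists_pow_mul _ hQ0
  obtain ⟨j, v, hv, hP⟩ := exists_pow_mul _ hP0
  exact ⟨i, j, ⟨u, hu, hQ⟩, ⟨v, hv, hP⟩⟩

/-- Pure powers of two in the norm. -/
def IsTwo {a : ℤ} (δ : ℤ√a) : Prop := ∃ S, δ.norm.natAbs = 2 ^ S

omit D in
theorem IsTwo.mul {α β : ℤ√a} (h : IsTwo α) (h' : IsTwo β) : IsTwo (α * β) := by
  obtain ⟨S, hS⟩ := h
  obtain ⟨T, hT⟩ := h'
  exact ⟨S + T, by rw [Zsqrtd.norm_mul, Int.natAbs_mul, hS, hT, pow_add]⟩

omit D in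
theorem IsTwo.pow {α : ℤ√a} (h : IsTwo α) (k : ℕ) : IsTwo (α ^ k) := by
  induction k with
  | zero => exact ⟨0, by simp⟩
  | succ k ih => rw [pow_succ]; exact ih.mul h

omit D in
theorem IsTwo.star {α : ℤ√a} (h : IsTwo α) : IsTwo (star α) := by
  obtain ⟨S, hS⟩ := h
  exact ⟨S, by rw [Zsqrtd.norm_conj, hS]⟩

omit D in
theorem IsTwo.ne {α : ℤ√a} (h : IsTwo α) : α.norm ≠ 0 := by
  obtain ⟨S, hS⟩ := h
  intro h0
  rw [h0, Int.natAbs_zero] at hS
  exact absurd hS.symm (pow_ne_zero S two_ne_zero)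

theorem Dat.isTwo_eps : IsTwo (eps n a y) := ⟨0, by rw [D.eps_norm]; rfl⟩

theorem Dat.isTwo_gam : IsTwo (gam n a y) :=
  ⟨n + 1, by rw [D.gam_norm, Int.natAbs_pow]; rfl⟩

/-- Reduction of the valuations. -/
theorem Dat.reduce_val {δ : ℤ√a} (h : IsTwo δ) :
    ∃ (N : ℕ) (g : ℤ√a) (i j : ℕ), (g = gam n a y ∨ g = star (gam n a y)) ∧
      D.Val (δ * g ^ N) i j ∧ 2 * i ≤ 2 * j + (n - 1) ∧ 2 * j ≤ 2 * i + (n - 1) := by
  obtain ⟨i, j, hij⟩ := D.exists_val h.ne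
  have hn := D.hn
  -- the quotient
  have key : ∀ (i j : ℕ), j ≤ i → ∃ N : ℕ, 2 * (i + 1 * N) ≤ 2 * (j + n * N) + (n - 1) ∧
      2 * (j + n * N) ≤ 2 * (i + 1 * N) + (n - 1) := by
    intro i j hji
    obtain ⟨k, rfl⟩ := Nat.exists_eq_add_of_le hji
    obtain ⟨m, rfl⟩ : ∃ m, n = m + 1 := ⟨n - 1, by omega⟩
    have hm : 0 < m := by omega
    have hdiv := Nat.div_add_mod k m
    have hmod := Nat.mod_lt k hm
    rcases Nat.lt_or_ge m (2 * (k % m)) with h1 | h1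
    · refine ⟨k / m + 1, ?_, ?_⟩
      · have : (m + 1) * (k / m + 1) = m * (k / m) + m + k / m + 1 := by ring
        omega
      · have : (m + 1) * (k / m + 1) = m * (k / m) + m + k / m + 1 := by ring
        omega
    · refine ⟨k / m, ?_, ?_⟩
      · have : (m + 1) * (k / m) = m * (k / m) + k / m := by ring
        omega
      · have : (m + 1) * (k / m) = m * (k / m) + k / m := by ring
        omega
  rcases le_total j i with hji | hji
  · obtain ⟨N, h1, h2⟩ := key i j hji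
    exact ⟨N, star (gam n a y), i + 1 * N, j + n * N, Or.inr rfl,
      hij.mul D ((D.val_gam.star D).pow D N), h1, h2⟩
  · obtain ⟨N, h1, h2⟩ := key j i hji
    exact ⟨N, gam n a y, i + n * N, j + 1 * N, Or.inl rfl,
      hij.mul D (D.val_gam.pow D N), h2, h1⟩

/-- Reduction of the sizes. -/
theorem Dat.reduce_size {δ : ℤ√a} (h : IsTwo δ) :
    ∃ (N : ℕ) (g : ℤ√a), (g = eps n a y ∨ g = star (eps n a y)) ∧
      rp (δ * g ^ N) ≤ rp (eps n a y) * rm (δ * g ^ N) ∧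
      rm (δ * g ^ N) ≤ rp (eps n a y) * rp (δ * g ^ N) := by
  have hnn : ∀ {α : ℤ√a}, IsTwo α → 0 < rp α ∧ 0 < rm α := by
    intro α hα
    have h1 := D.rp_mul_rm α
    have h2 : (0 : ℝ) < |(α.norm : ℝ)| := abs_pos.2 (by exact_mod_cast hα.ne)
    rw [← h1] at h2
    have h3 : 0 ≤ rp α := abs_nonneg _
    have h4 : 0 ≤ rm α := abs_nonneg _
    constructor
    · rcases h3.eq_or_lt with h0 | h0
      · rw [← h0, zero_mul] at h2; exact absurd h2 (lt_irrefl _)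
      · exact h0
    · rcases h4.eq_or_lt with h0 | h0
      · rw [← h0, mul_zero] at h2; exact absurd h2 (lt_irrefl _)
      · exact h0
  set E := rp (eps n a y) with hE
  have hEm : E * rm (eps n a y) = 1 := by
    rw [hE, D.rp_mul_rm, D.eps_norm]; simp
  have hE1 : 1 < E := by
    have h1 : E = (2 : ℝ) ^ n + y * √(a : ℝ) := by
      rw [hE, rp, eps]
      simp only
      push_cast
      apply abs_of_nonneg
      have : (0 : ℝ) < y := by exact_mod_cast D.hy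
      positivity
    have h2 : (0 : ℝ) < y := by exact_mod_cast D.hy
    have h3 : (0 : ℝ) ≤ √(a : ℝ) := Real.sqrt_nonneg _
    have h4 : (2 : ℝ) ≤ 2 ^ n := by
      calc (2 : ℝ) = 2 ^ 1 := by norm_num
        _ ≤ 2 ^ n := pow_le_pow_right₀ (by norm_num) (by have := D.hn; omega)
    rw [h1]
    nlinarith [mul_nonneg h2.le h3]
  have hE0 : 0 < E := by linarith
  have hrmE : rm (eps n a y) = E⁻¹ := by
    rw [eq_comm, inv_eq_of_mul_eq_one_right hEm]
  obtain ⟨p0, m0⟩ := hnn h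
  have hx : 0 < E * (rp δ / rm δ) := by positivity
  obtain ⟨k, hk1, hk2⟩ := exists_mem_Ico_zpow hx (by nlinarith : 1 < E * E)
  rcases Int.eq_nat_or_neg k with ⟨N, rfl | rfl⟩
  · -- divide by `ε^N`, that is multiply by the conjugate
    refine ⟨N, star (eps n a y), Or.inr rfl, ?_, ?_⟩
    · rw [D.rp_mul, D.rp_pow, D.rm_mul, D.rm_pow, rp_star, rm_star, hrmE, ← hE]
      rw [zpow_add₀ (by positivity), zpow_one, zpow_natCast, mul_pow] at hk2
      rw [mul_div_assoc', div_lt_iff₀ m0] at hk2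
      have h1 : E * rp δ < E * (E * (E ^ N * (E ^ N * rm δ))) := by linarith
      have h2 := lt_of_mul_lt_mul_left h1 hE0.le
      rw [inv_pow, ← div_eq_mul_inv, div_le_iff₀ (by positivity)]
      linarith
    · rw [D.rp_mul, D.rp_pow, D.rm_mul, D.rm_pow, rp_star, rm_star, hrmE, ← hE]
      rw [zpow_natCast, mul_pow] at hk1
      rw [mul_div_assoc', le_div_iff₀ m0] at hk1
      rw [inv_pow, ← div_eq_mul_inv, mul_div_assoc', le_div_iff₀ (by positivity)]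
      linarith
  · refine ⟨N, eps n a y, Or.inl rfl, ?_, ?_⟩
    · rw [D.rp_mul, D.rp_pow, D.rm_mul, D.rm_pow, hrmE, ← hE]
      rw [zpow_add₀ (by positivity), zpow_one, zpow_neg, zpow_natCast, mul_pow] at hk2
      rw [mul_div_assoc', div_lt_iff₀ m0, inv_mul_eq_div, div_mul_eq_mul_div, lt_div_iff₀ (by positivity)] at hk2
      have h1 : E * (rp δ * (E ^ N * E ^ N)) < E * (E * rm δ) := by linarith
      have h2 := lt_of_mul_lt_mul_left h1 hE0.le
      rw [inv_pow, ← div_eq_mul_inv, mul_div_assoc', le_div_iff₀ (by positivity)]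
      linarith
    · rw [D.rp_mul, D.rp_pow, D.rm_mul, D.rm_pow, hrmE, ← hE]
      rw [zpow_neg, zpow_natCast, mul_pow] at hk1
      rw [mul_div_assoc', le_div_iff₀ m0, inv_mul_eq_div, div_le_iff₀ (by positivity)] at hk1
      rw [inv_pow, ← div_eq_mul_inv, div_le_iff₀ (by positivity)]
      linarith

theorem Dat.eps_le : rp (eps n a y) ≤ 2 ^ (n + 2) := by
  have h2 : (0 : ℝ) < y := by exact_mod_cast D.hy
  have h3 : (0 : ℝ) ≤ √(a : ℝ) := Real.sqrt_nonneg _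
  have h1 : rp (eps n a y) = (2 : ℝ) ^ n + y * √(a : ℝ) := by
    rw [rp, eps]
    simp only
    push_cast
    apply abs_of_nonneg
    positivity
  have h4 : (y * √(a : ℝ)) ^ 2 = 4 ^ n + 1 := by
    have h5 : ((4 : ℝ) ^ n + 1) = a * y ^ 2 := by exact_mod_cast congrArg (Int.cast : ℤ → ℝ) D.eq
    rw [h5]
    linear_combination ((y : ℝ) ^ 2) * D.sqrt_sq
  have h6 : (4 : ℝ) ^ n = 2 ^ n * 2 ^ n := by rw [← mul_pow]; norm_num
  have h7 : (1 : ℝ) ≤ 2 ^ n := one_le_pow₀ (by norm_num)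
  have h8 : y * √(a : ℝ) ≤ 2 ^ n + 1 := by
    have : 0 ≤ y * √(a : ℝ) := by positivity
    nlinarith
  rw [h1, pow_add]
  linarith

/-- An element with a norm which is a power of two becomes rational after multiplication by a power
of `2γ` or its conjugate and by a unit. -/
theorem Dat.structure {e w : ℕ} (hw : Odd w) (hew : 4 * (n - 1) = 2 ^ e * w) {G : ℕ}
    (hG : 3 * n + 3 ≤ 4 * G) (hGn : G + 2 < n - e) {δ : ℤ√a} (h : IsTwo δ) :
    ∃ (N M : ℕ) (g g' : ℤ√a) (c : ℤ) (r : ℕ), (g = gam n a y ∨ g = star (gam n a y)) ∧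
      (g' = eps n a y ∨ g' = star (eps n a y)) ∧ δ * g ^ N * g' ^ M = c ∧ c.natAbs = 2 ^ r := by
  obtain ⟨N, g, i, j, hg, hval, hi, hj⟩ := D.reduce_val h
  have hg2 : IsTwo g := by
    rcases hg with rfl | rfl
    · exact D.isTwo_gam
    · exact D.isTwo_gam.star
  have h1 : IsTwo (δ * g ^ N) := h.mul (hg2.pow N)
  obtain ⟨M, g', hg', hs1, hs2⟩ := D.reduce_size h1
  have hg'2 : IsTwo g' := by
    rcases hg' with rfl | rfl
    · exact D.isTwo_eps
    · exact D.isTwo_eps.star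
  have hval2 : D.Val (δ * g ^ N * g' ^ M) i j := by
    rcases hg' with rfl | rfl
    · have := hval.mul D (D.val_eps.pow D M)
      simpa using this
    · have := hval.mul D ((D.val_eps.star D).pow D M)
      simpa using this
  have h2 : IsTwo (δ * g ^ N * g' ^ M) := h1.mul (hg'2.pow M)
  have him : (δ * g ^ N * g' ^ M).im = 0 := by
    by_contra him
    set ξ := δ * g ^ N * g' ^ M with hξ
    -- the product of the absolute values
    have hprod : rp ξ * rm ξ = 2 ^ (i + j) := by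
      obtain ⟨S, hS⟩ := h2
      have hSij : S = i + j := by
        obtain ⟨⟨u, hu, hu'⟩, ⟨v, hv, hv'⟩⟩ := hval2
        have e1 := D.P_mul_Q ξ
        rw [hu', hv'] at e1
        have e2 : (ξ.norm : ℤ) = 2 ^ S ∨ (ξ.norm : ℤ) = -2 ^ S := by
          have := Int.natAbs_eq ξ.norm
          rw [hS] at this; push_cast at this; exact this
        rcases e2 with e2 | e2
        · rw [e2] at e1; push_cast at e1
          exact (pow_eq_pow (k := i + j) (l := S) (hu.mul hv) isUnit_one (by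
            rw [mul_one, ← e1, pow_add]; ring)).symm
        · rw [e2] at e1; push_cast at e1
          exact (pow_eq_pow (k := i + j) (l := S) (hu.mul hv) (isUnit_one.neg) (by
            rw [mul_neg, mul_one, ← e1, pow_add]; ring)).symm
      rw [D.rp_mul_rm, ← Int.cast_abs, Int.abs_eq_natAbs, hS, hSij]; push_cast; rfl
    have n1 : 0 ≤ rp ξ := abs_nonneg _
    have n2 : 0 ≤ rm ξ := abs_nonneg _
    have hE := D.eps_le
    have main : ∀ (ζ : ℤ√a) (i j : ℕ), ζ.im ≠ 0 → IsTwo ζ → D.Val ζ i j → j ≤ i →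
        2 * i ≤ 2 * j + (n - 1) → rp ζ * rm ζ = 2 ^ (i + j) →
        rp ζ ≤ rp (eps n a y) * rm ζ → rm ζ ≤ rp (eps n a y) * rp ζ → False := by
      intro ζ i j hζ hζ2 hv hji hi hp hq1 hq2
      obtain ⟨⟨u, hu, hu'⟩, ⟨v, hv, hv'⟩⟩ := hv
      have hkey := D.key hw hew ζ hζ i j hji u v hu hv hu' hv' hζ2
      change (2 : ℝ) ^ (2 * j + (n - e)) ≤ (rp ζ + 2 ^ j) * (rm ζ + 2 ^ j) at hkey
      obtain ⟨k, rfl⟩ := Nat.exists_eq_add_of_le hji
      have n1 : 0 ≤ rp ζ := abs_nonneg _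
      have n2 : 0 ≤ rm ζ := abs_nonneg _
      have hsq : ∀ x z : ℝ, 0 ≤ x → 0 ≤ z → x * z = 2 ^ (j + k + j) → x ≤ rp (eps n a y) * z →
          x ≤ 2 ^ j * 2 ^ G := by
        intro x z hx hz hxz hle
        have e1 : x * x ≤ 2 ^ (n + 2) * 2 ^ (j + k + j) := by
          calc x * x ≤ (rp (eps n a y) * z) * x := mul_le_mul_of_nonneg_right hle hx
            _ = rp (eps n a y) * (x * z) := by ring
            _ = rp (eps n a y) * 2 ^ (j + k + j) := by rw [hxz]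
            _ ≤ _ := mul_le_mul_of_nonneg_right hE (by positivity)
        have e2 : (x * x) * (x * x) ≤ (2 ^ j * 2 ^ G) ^ 4 := by
          calc (x * x) * (x * x) ≤ (2 ^ (n + 2) * 2 ^ (j + k + j)) * (2 ^ (n + 2) * 2 ^ (j + k + j)) :=
                mul_le_mul e1 e1 (by positivity) (by positivity)
            _ = 2 ^ (2 * (n + 2) + 4 * j + 2 * k) := by
                rw [← pow_add, ← pow_add]; congr 1; ring
            _ ≤ 2 ^ (4 * (j + G)) := pow_le_pow_right₀ (by norm_num) (by omega)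
            _ = (2 ^ j * 2 ^ G) ^ 4 := by rw [← pow_add, ← pow_mul]; congr 1; ring
        have e3 : x ^ 4 ≤ (2 ^ j * 2 ^ G) ^ 4 := by
          calc x ^ 4 = (x * x) * (x * x) := by ring
            _ ≤ _ := e2
        exact le_of_pow_le_pow_left₀ (by norm_num) (by positivity) e3
      have b1 := hsq (rp ζ) (rm ζ) n1 n2 hp hq1
      have b2 := hsq (rm ζ) (rp ζ) n2 n1 (by rw [mul_comm]; exact hp) hq2
      have hkG : k ≤ G := by omega
      have hfin : (2 : ℝ) ^ (2 * j + (n - e)) ≤ 2 ^ (2 * j + (G + 2)) := by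
        refine hkey.trans ?_
        have g0 : (1 : ℝ) ≤ 2 ^ j := one_le_pow₀ (by norm_num)
        have g1 : (2 : ℝ) ^ k ≤ 2 ^ G := pow_le_pow_right₀ (by norm_num) hkG
        have g2 : (1 : ℝ) ≤ 2 ^ G := one_le_pow₀ (by norm_num)
        have g3 : rp ζ * rm ζ ≤ (2 ^ j * 2 ^ j) * 2 ^ G := by
          rw [hp, pow_add, pow_add]
          have : (2 : ℝ) ^ j * 2 ^ k * 2 ^ j = (2 ^ j * 2 ^ j) * 2 ^ k := by ring
          rw [this]
          exact mul_le_mul_of_nonneg_left g1 (by positivity)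
        have g4 : rp ζ * 2 ^ j ≤ (2 ^ j * 2 ^ j) * 2 ^ G := by
          calc rp ζ * 2 ^ j ≤ (2 ^ j * 2 ^ G) * 2 ^ j := mul_le_mul_of_nonneg_right b1 (by positivity)
            _ = _ := by ring
        have g5 : 2 ^ j * rm ζ ≤ (2 ^ j * 2 ^ j) * 2 ^ G := by
          calc 2 ^ j * rm ζ ≤ 2 ^ j * (2 ^ j * 2 ^ G) := mul_le_mul_of_nonneg_left b2 (by positivity)
            _ = _ := by ring
        have g6 : (2 : ℝ) ^ j * 2 ^ j ≤ (2 ^ j * 2 ^ j) * 2 ^ G :=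
          le_mul_of_one_le_right (by positivity) g2
        have g7 : (2 : ℝ) ^ (2 * j + (G + 2)) = 4 * ((2 ^ j * 2 ^ j) * 2 ^ G) := by
          rw [pow_add, pow_add 2 G 2, two_mul, pow_add 2 j j]; ring
        rw [g7]
        nlinarith
      have := (pow_le_pow_iff_right₀ (by norm_num : (1 : ℝ) < 2)).1 hfin
      omega
    rcases le_total j i with hji | hji
    · exact main ξ i j him h2 hval2 hji hi hprod hs1 hs2
    · refine main (star ξ) j i ?_ h2.star (hval2.star D) hji hj ?_ ?_ ?_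
      · rw [Zsqrtd.im_star]; exact neg_ne_zero.2 him
      · rw [rp_star, rm_star, mul_comm, hprod, add_comm]
      · rw [rp_star, rm_star]; exact hs2
      · rw [rp_star, rm_star]; exact hs1
  -- the rational element
  obtain ⟨S, hS⟩ := h2
  set ξ := δ * g ^ N * g' ^ M with hξ
  have hnorm : ξ.norm = ξ.re * ξ.re := by rw [Zsqrtd.norm_def, him]; ring
  rw [hnorm, Int.natAbs_mul] at hS
  have hdvd : ξ.re.natAbs ∣ 2 ^ S := ⟨ξ.re.natAbs, hS.symm⟩
  obtain ⟨r, _, hr⟩ := (Nat.dvd_prime_pow Nat.prime_two).1 hdvd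
  refine ⟨N, M, g, g', ξ.re, r, hg, hg', ?_, hr⟩
  have hext : ξ = ((ξ.re : ℤ) : ℤ√a) := by
    apply Zsqrtd.ext
    · rw [Zsqrtd.re_intCast]
    · rw [Zsqrtd.im_intCast, him]
  exact hext

end

end Pool.Agent.H42.SF
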