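import Pool.Agent.H42.SF.Z2

set_option autoImplicit false

/-! The field `ℚ(√a)` with `4^n + 1 = a y²`: the 2-adic embedding and the units. -/

namespace Pool.Agent.H42.SF

open Finset Pell

/-- `4^n + 1 = a y²` and a 2-adic square root `ρ` of `a` with `ρ y` close to `1`. -/
structure Dat (n : ℕ) (a y : ℤ) (ρ : ℤ_[2]) : Prop where
  hn : 2 ≤ n
  eq : 4 ^ n + 1 = a * y ^ 2
  hy : 0 < y
  sq : ρ * ρ = a
  cl : (2 : ℤ_[2]) ^ (2 * n - 1) ∣ ρ * y - 1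

theorem sq_of_four {n : ℕ} (w : ℤ) : (4 : ℤ) ^ n + 1 ≠ w ^ 2 := by
  intro h
  have h1 : ((2 : ℤ) ^ n) ^ 2 = 4 ^ n := by rw [← pow_mul, mul_comm, pow_mul]; norm_num
  have h2 : (0 : ℤ) < 2 ^ n := by positivity
  have h3 : ((2 : ℤ) ^ n) ^ 2 + 1 = |w| ^ 2 := by rw [h1, h, sq_abs]
  have h4 : 0 ≤ |w| := abs_nonneg w
  have h5 : (2 : ℤ) ^ n < |w| := by nlinarith
  nlinarith

theorem y_odd {n : ℕ} {a y : ℤ} (hn : 2 ≤ n) (h : 4 ^ n + 1 = a * y ^ 2) : Odd y := by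
  by_contra he
  rw [Int.not_odd_iff_even] at he
  obtain ⟨c, hc⟩ := he
  have h4 : (4 : ℤ) ^ n = 4 * 4 ^ (n - 1) := by
    rw [← pow_succ']; congr 1; omega
  rw [hc, h4] at h
  have : (1 : ℤ) = 2 * (2 * (a * c ^ 2 - 4 ^ (n - 1))) := by linear_combination h
  omega

theorem a_mod {n : ℕ} {a y : ℤ} (hn : 2 ≤ n) (h : 4 ^ n + 1 = a * y ^ 2) : (8 : ℤ) ∣ a - 1 := by
  have h8 : (8 : ℤ) ∣ 4 ^ n := by
    obtain ⟨k, rfl⟩ := Nat.exists_eq_add_of_le hn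
    exact ⟨2 * 4 ^ k, by rw [pow_add]; ring⟩
  have hy2 : (8 : ℤ) ∣ y ^ 2 - 1 := Int.eight_dvd_sq_sub_one_of_odd (y_odd hn h)
  obtain ⟨u, hu⟩ := h8
  obtain ⟨v, hv⟩ := hy2
  refine ⟨u - a * v, ?_⟩
  linear_combination hu - h - a * hv

theorem exists_dat {n : ℕ} {a y : ℤ} (hn : 2 ≤ n) (h : 4 ^ n + 1 = a * y ^ 2) (hy : 0 < y) :
    ∃ ρ, Dat n a y ρ := by
  have h4 : (‖(2 : ℤ_[2])‖ : ℝ) = 1 / 2 := by
    have := PadicInt.norm_p (p := 2)
    norm_num at this ⊢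
    exact this
  have hz : ∃ z : ℤ_[2], z ^ 2 = 4 ^ n + 1 ∧ ‖z - 1‖ < 1 / 2 := by
    have hF := hensels_lemma (p := 2) (F := (Polynomial.X ^ 2 - Polynomial.C (4 ^ n + 1) : Polynomial ℤ_[2]))
      (a := 1) (by
        simp only [map_sub, map_pow, Polynomial.aeval_X, Polynomial.aeval_C, one_pow,
          Polynomial.derivative_sub, Polynomial.derivative_X_pow, Polynomial.derivative_C]
        simp only [Algebra.algebraMap_self, RingHom.id_apply, sub_add_cancel_left, norm_neg,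
          norm_pow]
        norm_num
        rw [show (4 : ℤ_[2]) = 2 * 2 by norm_num, norm_mul, h4]
        have : ((1 : ℝ) / 2 * (1 / 2)) ^ n ≤ (1 / 2 * (1 / 2)) ^ 2 :=
          pow_le_pow_of_le_one (by norm_num) (by norm_num) hn
        calc ((1 : ℝ) / 2 * (1 / 2)) ^ n ≤ (1 / 2 * (1 / 2)) ^ 2 := this
          _ < _ := by norm_num)
    obtain ⟨z, hz1, hz2, -⟩ := hF
    refine ⟨z, ?_, ?_⟩
    · simp only [map_sub, map_pow, Polynomial.aeval_X, Polynomial.aeval_C] at hz1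
      simp only [Algebra.algebraMap_self, RingHom.id_apply] at hz1
      linear_combination hz1
    · simp only [Polynomial.derivative_sub, Polynomial.derivative_X_pow, Polynomial.derivative_C] at hz2
      norm_num at hz2
      rw [h4] at hz2
      exact hz2
  obtain ⟨z, hz, hz1⟩ := hz
  have hd : (4 : ℤ_[2]) ∣ z - 1 := by
    have h5 : ‖z - 1‖ ≤ (2 : ℝ) ^ (-(2 : ℕ) : ℤ) := by
      have := (PadicInt.norm_lt_pow_iff_norm_le_pow_sub_one (p := 2) (z - 1) (-1)).1 (by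
        norm_num at hz1 ⊢; exact hz1)
      norm_num at this ⊢; exact this
    have := (PadicInt.norm_le_pow_iff_mem_span_pow (p := 2) (z - 1) 2).1 (by simpa using h5)
    rw [Ideal.mem_span_singleton] at this
    norm_num at this
    exact this
  obtain ⟨c, hc⟩ := hd
  have hzc : z = 1 + 4 * c := by linear_combination hc
  have hv : IsUnit (1 + 2 * c) := by rw [isUnit_iff]; exact ⟨c, by ring⟩
  have hyu : IsUnit (y : ℤ_[2]) := by
    rw [isUnit_iff]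
    obtain ⟨k, hk⟩ := y_odd hn h
    exact ⟨(k : ℤ_[2]), by rw [hk]; push_cast; ring⟩
  obtain ⟨y', hy'⟩ := hyu.exists_right_inv
  have hcast : (4 : ℤ_[2]) ^ n + 1 = a * y ^ 2 := by exact_mod_cast congrArg (Int.cast : ℤ → ℤ_[2]) h
  refine ⟨z * y', hn, h, hy, ?_, ?_⟩
  · linear_combination (y' ^ 2) * hz + (y' ^ 2) * hcast + ((a : ℤ_[2]) * (y * y' + 1)) * hy'
  · have e1 : z * y' * y - 1 = z - 1 := by linear_combination z * hy'
    rw [e1, ← dvd_unit_mul hv]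
    refine ⟨1, ?_⟩
    have e2 : 2 * ((1 + 2 * c) * (z - 1)) = 2 * (2 ^ (2 * n - 1) * 1) := by
      have : (2 : ℤ_[2]) * (2 ^ (2 * n - 1) * 1) = 4 ^ n := by
        rw [mul_one, ← pow_succ', show 2 * n - 1 + 1 = 2 * n by omega, pow_mul]; norm_num
      rw [this]
      linear_combination hz - (z - 1) * hzc
    exact mul_left_cancel₀ prime_two.ne_zero e2

section

variable {n : ℕ} {a y : ℤ} {ρ : ℤ_[2]} (D : Dat n a y ρ)

include D

theorem Dat.apos : 0 < a := by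
  have h1 : (0 : ℤ) < 4 ^ n + 1 := by positivity
  rw [D.eq] at h1
  have := D.hy
  by_contra hle
  push Not at hle
  nlinarith [mul_nonneg_of_nonpos_of_nonpos (a := a) (b := -(y ^ 2)) hle (by nlinarith)]

theorem Dat.not_sq : ¬ IsSquare a := by
  rintro ⟨b, hb⟩
  exact sq_of_four (n := n) (b * y) (by rw [D.eq, hb]; ring)

theorem Dat.rho_unit : IsUnit ρ := by
  have h : IsUnit (ρ * ρ) := by
    rw [D.sq, isUnit_iff]
    obtain ⟨c, hc⟩ := a_mod D.hn D.eq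
    refine ⟨(4 * c : ℤ), ?_⟩
    rw [show a = 1 + 8 * c by linarith]; push_cast; ring
  exact isUnit_of_mul_isUnit_left h

/-- The embedding `√a ↦ ρ`. -/
noncomputable def Dat.P : ℤ√a →+* ℤ_[2] := Zsqrtd.lift ⟨ρ, D.sq⟩

/-- The embedding `√a ↦ -ρ`. -/
noncomputable def Dat.Q : ℤ√a →+* ℤ_[2] := Zsqrtd.lift ⟨-ρ, by rw [neg_mul_neg, D.sq]⟩

theorem Dat.P_apply (δ : ℤ√a) : D.P δ = δ.re + δ.im * ρ := rfl

theorem Dat.Q_apply (δ : ℤ√a) : D.Q δ = δ.re - δ.im * ρ := by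
  change (δ.re : ℤ_[2]) + δ.im * (-ρ) = _
  ring

theorem Dat.P_mul_Q (δ : ℤ√a) : D.P δ * D.Q δ = (δ.norm : ℤ_[2]) := by
  rw [D.P_apply, D.Q_apply, Zsqrtd.norm_def]
  push_cast
  linear_combination (-(δ.im : ℤ_[2]) ^ 2) * D.sq

theorem Dat.P_star (δ : ℤ√a) : D.P (star δ) = D.Q δ := by
  rw [D.P_apply, D.Q_apply, Zsqrtd.re_star, Zsqrtd.im_star]; push_cast; ring

theorem Dat.Q_star (δ : ℤ√a) : D.Q (star δ) = D.P δ := by
  rw [D.P_apply, D.Q_apply, Zsqrtd.re_star, Zsqrtd.im_star]; push_cast; ring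

/-- All units of norm one are close to `± 1` at the place `√a ↦ ρ`. -/
theorem Dat.units (s : Solution₁ a) :
    (2 : ℤ_[2]) ^ n ∣ D.P (s : ℤ√a) - 1 ∨ (2 : ℤ_[2]) ^ n ∣ D.P (s : ℤ√a) + 1 := by
  have h22 : ((2 : ℤ) ^ n) ^ 2 = 4 ^ n := by rw [← pow_mul, mul_comm, pow_mul]; norm_num
  let f : Solution₁ a := Solution₁.mk (2 * 4 ^ n + 1) (2 * 2 ^ n * y) (by
    have := D.eq
    linear_combination (4 * y ^ 2 * a) * (-h22) + (4 * 4 ^ n : ℤ) * this)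
  have hfx : f.x = 2 * 4 ^ n + 1 := rfl
  have hfy : f.y = 2 * 2 ^ n * y := rfl
  obtain ⟨g, hg⟩ := IsFundamental.exists_of_not_isSquare D.apos D.not_sq
  obtain ⟨k, hk⟩ := hg.eq_pow_of_nonneg (a := f) (by rw [hfx]; positivity)
    (by rw [hfy]; have := D.hy; positivity)
  have hkodd : Odd k := by
    by_contra he
    rw [Nat.not_odd_iff_even] at he
    obtain ⟨l, rfl⟩ := he
    rw [pow_add] at hk
    have h1 : f.x = (g ^ l).x * (g ^ l).x + a * ((g ^ l).y * (g ^ l).y) := by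
      rw [hk, Solution₁.x_mul]
    have h2 := (g ^ l).prop
    exact sq_of_four (n := n) (g ^ l).x (by rw [hfx] at h1; linarith)
  have hcoe : ∀ (s : Solution₁ a) (m : ℕ), ((s ^ m : Solution₁ a) : ℤ√a) = (s : ℤ√a) ^ m := by
    intro s m
    exact SubmonoidClass.coe_pow s m
  have hunit : ∀ s : Solution₁ a, D.P (s : ℤ√a) * D.Q (s : ℤ√a) = 1 := by
    intro s
    rw [D.P_mul_Q]
    have := s.prop
    have h3 : (s : ℤ√a).norm = 1 := by
      rw [Zsqrtd.norm_def]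
      change s.x * s.x - a * s.y * s.y = 1
      linear_combination this
    rw [h3]; simp
  have hfc : (f : ℤ√a) = (g : ℤ√a) ^ k := by rw [hk, hcoe]
  have hPf : (2 : ℤ_[2]) ^ n ∣ D.P (f : ℤ√a) - 1 := by
    rw [D.P_apply]
    change (2 : ℤ_[2]) ^ n ∣ ((f.x : ℤ) : ℤ_[2]) + ((f.y : ℤ) : ℤ_[2]) * ρ - 1
    rw [hfx, hfy]
    refine ⟨2 * 2 ^ n + 2 * y * ρ, ?_⟩
    push_cast
    have : (4 : ℤ_[2]) ^ n = 2 ^ n * 2 ^ n := by rw [← mul_pow]; norm_num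
    rw [this]; ring
  have hQf : (2 : ℤ_[2]) ^ n ∣ D.Q (f : ℤ√a) - 1 := by
    rw [D.Q_apply]
    change (2 : ℤ_[2]) ^ n ∣ ((f.x : ℤ) : ℤ_[2]) - ((f.y : ℤ) : ℤ_[2]) * ρ - 1
    rw [hfx, hfy]
    refine ⟨2 * 2 ^ n - 2 * y * ρ, ?_⟩
    push_cast
    have : (4 : ℤ_[2]) ^ n = 2 ^ n * 2 ^ n := by rw [← mul_pow]; norm_num
    rw [this]; ring
  have hPg : (2 : ℤ_[2]) ^ n ∣ D.P (g : ℤ√a) - 1 := by
    apply odd_pow _ hkodd
    · rw [← map_pow, ← hfc]; exact hPf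
    · rw [← isUnit_iff]; exact IsUnit.of_mul_eq_one _ (hunit g)
  have hQg : (2 : ℤ_[2]) ^ n ∣ D.Q (g : ℤ√a) - 1 := by
    apply odd_pow _ hkodd
    · rw [← map_pow, ← hfc]; exact hQf
    · rw [← isUnit_iff]; exact IsUnit.of_mul_eq_one (D.P (g : ℤ√a)) (by rw [mul_comm]; exact hunit g)
  let G : Subgroup (Solution₁ a) :=
    { carrier := {s | (2 : ℤ_[2]) ^ n ∣ D.P (s : ℤ√a) - 1 ∧ (2 : ℤ_[2]) ^ n ∣ D.Q (s : ℤ√a) - 1}
      mul_mem' := by
        rintro s t ⟨h1, h2⟩ ⟨h3, h4⟩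
        have hc : ((s * t : Solution₁ a) : ℤ√a) = (s : ℤ√a) * (t : ℤ√a) := rfl
        refine ⟨?_, ?_⟩
        · rw [hc, map_mul]
          have := dvd_add (h3.mul_left (D.P (s : ℤ√a))) h1
          convert this using 1; ring
        · rw [hc, map_mul]
          have := dvd_add (h4.mul_left (D.Q (s : ℤ√a))) h2
          convert this using 1; ring
      one_mem' := by
        refine ⟨?_, ?_⟩
        · change (2 : ℤ_[2]) ^ n ∣ D.P (1 : ℤ√a) - 1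
          simp
        · change (2 : ℤ_[2]) ^ n ∣ D.Q (1 : ℤ√a) - 1
          simp
      inv_mem' := by
        rintro s ⟨h1, h2⟩
        have hc : ((s⁻¹ : Solution₁ a) : ℤ√a) = star (s : ℤ√a) := rfl
        refine ⟨?_, ?_⟩
        · rw [hc, D.P_star]; exact h2
        · rw [hc, D.Q_star]; exact h1 }
  have hgG : g ∈ G := ⟨hPg, hQg⟩
  obtain ⟨e, he⟩ := hg.eq_zpow_or_neg_zpow s
  have hG := (Subgroup.zpow_mem G hgG e).1
  rcases he with rfl | rfl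
  · exact Or.inl hG
  · right
    have hc : ((-(g ^ e) : Solution₁ a) : ℤ√a) = -((g ^ e : Solution₁ a) : ℤ√a) := rfl
    rw [hc, map_neg]
    have := (dvd_neg (a := (2 : ℤ_[2]) ^ n) (b := D.P ((g ^ e : Solution₁ a) : ℤ√a) - 1)).2 hG
    convert this using 1; ring

end

end Pool.Agent.H42.SF
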