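import Mathlib

set_option autoImplicit false

/-! The 2-adic integers: parity, units, and elements whose powers are close to `± 1`. -/

namespace Pool.Agent.H42.SF

open Finset

/-- Every 2-adic integer is even or odd. -/
theorem even_or_odd (z : ℤ_[2]) : (2 : ℤ_[2]) ∣ z ∨ (2 : ℤ_[2]) ∣ z - 1 := by
  have key : ∀ w : ℤ_[2], PadicInt.toZMod w = 0 → (2 : ℤ_[2]) ∣ w := by
    intro w hw
    have : w ∈ RingHom.ker (PadicInt.toZMod : ℤ_[2] →+* ZMod 2) := hw
    rw [PadicInt.ker_toZMod, PadicInt.maximalIdeal_eq_span_p, Ideal.mem_span_singleton] at this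
    simpa using this
  have h : ∀ x : ZMod 2, x = 0 ∨ x = 1 := by decide
  rcases h (PadicInt.toZMod z) with h0 | h1
  · exact Or.inl (key z h0)
  · refine Or.inr (key _ ?_)
    rw [map_sub, h1, map_one, sub_self]

theorem prime_two : Prime (2 : ℤ_[2]) := by
  have := PadicInt.prime_p (p := 2)
  simpa using this

theorem not_dvd_one : ¬ (2 : ℤ_[2]) ∣ 1 := fun h => prime_two.not_isUnit (isUnit_of_dvd_one h)

theorem odd_iff (z : ℤ_[2]) : (2 : ℤ_[2]) ∣ z - 1 ↔ ¬ (2 : ℤ_[2]) ∣ z := by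
  constructor
  · intro h1 h2
    exact not_dvd_one (by simpa using dvd_sub h2 h1)
  · intro h
    exact (even_or_odd z).resolve_left h

theorem isUnit_iff (z : ℤ_[2]) : IsUnit z ↔ (2 : ℤ_[2]) ∣ z - 1 := by
  rw [odd_iff]
  constructor
  · intro h1 h2
    exact prime_two.not_isUnit (isUnit_of_dvd_unit h2 h1)
  · intro h
    rw [PadicInt.isUnit_iff]
    by_contra h1
    have h2 : ‖z‖ < 1 := lt_of_le_of_ne (PadicInt.norm_le_one z) h1
    rw [PadicInt.norm_lt_one_iff_dvd] at h2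
    exact h (by simpa using h2)

/-- `z = 2^k u`, `u` a unit. -/
theorem exists_pow_mul (z : ℤ_[2]) (hz : z ≠ 0) : ∃ (k : ℕ) (u : ℤ_[2]), IsUnit u ∧ z = 2 ^ k * u := by
  refine ⟨z.valuation, PadicInt.unitCoeff hz, Units.isUnit _, ?_⟩
  have := PadicInt.unitCoeff_spec hz
  rw [mul_comm] at this
  simpa using this

theorem dvd_unit_mul {k : ℕ} {u z : ℤ_[2]} (hu : IsUnit u) :
    (2 : ℤ_[2]) ^ k ∣ u * z ↔ (2 : ℤ_[2]) ^ k ∣ z := hu.dvd_mul_left

theorem pow_dvd_pow_mul_unit {k l : ℕ} {u : ℤ_[2]} (hu : IsUnit u) (h : (2 : ℤ_[2]) ^ k ∣ 2 ^ l * u) :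
    k ≤ l := by
  rw [hu.dvd_mul_right] at h
  by_contra hlt
  push Not at hlt
  obtain ⟨d, rfl⟩ := Nat.exists_eq_add_of_lt hlt
  obtain ⟨c, hc⟩ := h
  have h0 : (2 : ℤ_[2]) ^ l ≠ 0 := pow_ne_zero _ prime_two.ne_zero
  have : (1 : ℤ_[2]) = 2 ^ (d + 1) * c := by
    apply mul_left_cancel₀ h0
    calc (2 : ℤ_[2]) ^ l * 1 = 2 ^ l := by ring
      _ = 2 ^ (l + d + 1) * c := hc
      _ = 2 ^ l * (2 ^ (d + 1) * c) := by ring
  exact not_dvd_one ⟨2 ^ d * c, by rw [this]; ring⟩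

theorem pow_eq_pow {k l : ℕ} {u v : ℤ_[2]} (hu : IsUnit u) (hv : IsUnit v)
    (h : 2 ^ k * u = 2 ^ l * v) : k = l := by
  apply le_antisymm
  · exact pow_dvd_pow_mul_unit hv ⟨u, h.symm⟩
  · exact pow_dvd_pow_mul_unit hu ⟨v, h⟩

theorem int_dvd {k : ℕ} {c : ℤ} : (2 : ℤ_[2]) ^ k ∣ (c : ℤ_[2]) ↔ (2 : ℤ) ^ k ∣ c := by
  have := PadicInt.pow_p_dvd_int_iff (p := 2) k c
  simpa using this

/-- Odd powers. -/
theorem odd_pow {u : ℤ_[2]} {k t : ℕ} (hu : (2 : ℤ_[2]) ∣ u - 1) (hk : Odd k)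
    (h : (2 : ℤ_[2]) ^ t ∣ u ^ k - 1) : (2 : ℤ_[2]) ^ t ∣ u - 1 := by
  rw [← mul_geom_sum u k] at h
  have hs : IsUnit (∑ i ∈ range k, u ^ i) := by
    rw [isUnit_iff, odd_iff]
    intro h2
    have key : ∀ w : ℤ_[2], (2 : ℤ_[2]) ∣ w → PadicInt.toZMod w = 0 := by
      rintro w ⟨c, rfl⟩
      rw [map_mul]
      have : (PadicInt.toZMod (2 : ℤ_[2]) : ZMod 2) = 0 := by
        rw [map_ofNat]; rfl
      rw [this, zero_mul]
    have h3 := key _ h2
    have h4 : PadicInt.toZMod u = (1 : ZMod 2) := by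
      have := key _ hu
      rw [map_sub, map_one, sub_eq_zero] at this
      exact this
    rw [map_sum] at h3
    simp only [map_pow, h4, one_pow, sum_const, card_range, nsmul_eq_mul, mul_one] at h3
    rw [ZMod.natCast_eq_zero_iff] at h3
    exact (Nat.not_even_iff_odd.2 hk) (even_iff_two_dvd.2 h3)
  rw [mul_comm] at h
  exact (dvd_unit_mul hs).1 h

/-- One of `u - 1`, `u + 1` is exactly divisible by `2`. -/
theorem four_cases {u : ℤ_[2]} (hu : (2 : ℤ_[2]) ∣ u - 1) :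
    (∃ v, IsUnit v ∧ u + 1 = 2 * v) ∨ (∃ v, IsUnit v ∧ u - 1 = 2 * v) := by
  obtain ⟨w, hw⟩ := hu
  rcases even_or_odd w with h | h
  · left
    refine ⟨w + 1, ?_, by linear_combination hw⟩
    rw [isUnit_iff]; simpa using h
  · right
    exact ⟨w, (isUnit_iff w).2 h, hw⟩

/-- If a power of `u` is close to `1` or `-1` then `u` is close to `1` or `-1`. -/
theorem close_of_pow (e : ℕ) : ∀ {u : ℤ_[2]} {w t : ℕ}, (2 : ℤ_[2]) ∣ u - 1 → Odd w →
    ((2 : ℤ_[2]) ^ t ∣ u ^ (2 ^ e * w) - 1 ∨ (2 : ℤ_[2]) ^ t ∣ u ^ (2 ^ e * w) + 1) →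
    ((2 : ℤ_[2]) ^ (t - e) ∣ u - 1 ∨ (2 : ℤ_[2]) ^ (t - e) ∣ u + 1) := by
  induction e with
  | zero =>
    intro u w t hu hw h
    simp only [pow_zero, one_mul, Nat.sub_zero] at h ⊢
    rcases h with h | h
    · exact Or.inl (odd_pow hu hw h)
    · right
      have h1 : (2 : ℤ_[2]) ^ t ∣ (-u) ^ w - 1 := by
        rw [hw.neg_pow]
        have := (dvd_neg (a := (2 : ℤ_[2]) ^ t) (b := u ^ w + 1)).2 h
        convert this using 1; ring
      have h2 : (2 : ℤ_[2]) ∣ (-u) - 1 := by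
        have : (2 : ℤ_[2]) ∣ (u - 1) + 2 := dvd_add hu dvd_rfl
        have := (dvd_neg (a := (2 : ℤ_[2])) (b := (u - 1) + 2)).2 this
        convert this using 1; ring
      have h3 := odd_pow h2 hw h1
      have := (dvd_neg (a := (2 : ℤ_[2]) ^ t) (b := -u - 1)).2 h3
      convert this using 1; ring
  | succ e ih =>
    intro u w t hu hw h
    have hD : (2 : ℤ_[2]) ∣ u ^ (2 ^ e * w) - 1 := by
      have : u - 1 ∣ u ^ (2 ^ e * w) - 1 := by simpa using sub_dvd_pow_sub_pow u 1 (2 ^ e * w)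
      exact hu.trans this
    have hpow : u ^ (2 ^ (e + 1) * w) = (u ^ (2 ^ e * w)) ^ 2 := by
      rw [← pow_mul]; congr 1; ring
    rw [hpow] at h
    set D := u ^ (2 ^ e * w) with hDdef
    have hstep : (2 : ℤ_[2]) ^ (t - 1) ∣ D - 1 ∨ (2 : ℤ_[2]) ^ (t - 1) ∣ D + 1 := by
      rcases Nat.eq_zero_or_pos t with h0 | hpos
      · subst h0; left; simp
      obtain ⟨t', rfl⟩ : ∃ t', t = t' + 1 := ⟨t - 1, by omega⟩
      simp only [Nat.add_sub_cancel]
      rcases h with h | h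
      · have hf : D ^ 2 - 1 = (D - 1) * (D + 1) := by ring
        rw [hf] at h
        rcases four_cases hD with ⟨v, hv, hv2⟩ | ⟨v, hv, hv2⟩
        · left
          rw [hv2, pow_succ] at h
          have h5 : (2 : ℤ_[2]) ^ t' * 2 ∣ (v * (D - 1)) * 2 := by
            convert h using 1; ring
          have h6 := (mul_dvd_mul_iff_right prime_two.ne_zero).1 h5
          exact (dvd_unit_mul hv).1 h6
        · right
          rw [hv2, pow_succ] at h
          have h5 : (2 : ℤ_[2]) ^ t' * 2 ∣ (v * (D + 1)) * 2 := by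
            convert h using 1; ring
          have h6 := (mul_dvd_mul_iff_right prime_two.ne_zero).1 h5
          exact (dvd_unit_mul hv).1 h6
      · -- `D ^ 2 + 1` is exactly divisible by `2`
        have hone : t' = 0 := by
          obtain ⟨c, hc⟩ := hD
          have hDc : D = 2 * c + 1 := by linear_combination hc
          have h7 : D ^ 2 + 1 = 2 ^ 1 * (1 + 2 * (c ^ 2 + c)) := by rw [hDc]; ring
          rw [h7] at h
          have hu1 : IsUnit (1 + 2 * (c ^ 2 + c)) := by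
            rw [isUnit_iff]; exact ⟨c ^ 2 + c, by ring⟩
          have := pow_dvd_pow_mul_unit hu1 h
          omega
        subst hone; left; simp
    have := ih (u := u) (w := w) (t := t - 1) hu hw hstep
    rwa [show t - 1 - e = t - (e + 1) by omega] at this

end Pool.Agent.H42.SF
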